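import Mathlib
import Pool.Agent.Helper29.E2.Top
import Pool.Agent.Helper29.ETK.Far1

/-!
# E-T (MP_12a1af_nt), phase 2: far inequalities, the `P` run of the larger time
-/

namespace Pool.Agent.Helper29.E2

open Pool.Agent.Helper29.ETK

variable {c : ℕ}

/-- the `R` run of `kid` without block: divisibility at its start -/
theorem kid_R_sizes (hc : 10 ≤ c) {t : ℕ} (ht : 9 ≤ epo c t) :
    ∀ v, ∀ s < wb c t, kid c t s = .R v → KCut c t s → 0 < s ∧ Wd c s ∣ s ∧ Wd c s ∣ v := by
  intro v s hs h hcut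
  obtain ⟨hM, hv⟩ := (kid_R_iff t s v).mp (Or.inl h)
  rw [kid_of_not_isM hM, hv] at h
  rcases kidR_cases c t v with h2 | h2 | h2
  · rw [h2.1] at h; simp at h
  · rw [h2.1] at h; simp at h
  · obtain ⟨h3, h0, hav, hak⟩ := h2
    obtain ⟨hub, hact⟩ := ab_spec hc ht h0
    obtain ⟨p1, p2, p3, p4, l, q1, q2, q3, -⟩ := acts_pos hc ht hub hact
    rw [← av_eq, hav] at q3
    have h12 := (acts_cases hc ht hub hact).1
    have hlt := lt_of_va_eq hc ht hub (un_un hc s) hact hM (by rw [hv, ← av_eq, hav])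
    have h4 := unit_add_le hc hub (un_un hc s) hlt
    have h5 := un_le c s
    have hW := Wd_pos c (ab c t)
    have hsv : s < v := by
      have := (va_pos hc ht (un_un hc s) (lt_of_le_of_lt h5 hs)
        (fun h1 => hM (Or.inr h1))).1
      rw [hv, Wd_un hc] at this
      have := lt_un c s
      omega
    have h6 : s = ab c t + Wd c (ab c t) := by
      by_contra hne
      rcases hcut with h7 | h7 | h7
      · omega
      · omega
      · apply h7
        obtain ⟨k1, k2, -⟩ := kid_above_acts hc ht hub hact (s := s - 1) (by omega)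
          (by rw [← av_eq, hav]; omega)
        rw [kid_of_not_isM k1, k2, kid_of_not_isM hM, hv, ← av_eq, hav]
    obtain ⟨n1, n2⟩ := un_next hc hub (by omega) q1 q2 q3
    refine ⟨by omega, ?_, (n2 s (by omega) (by omega)).1⟩
    rw [h6]
    exact un_eq_iff.mp n1

lemma tm_mono (hc : 10 ≤ c) {K K' : ℕ} (hE : 9 ≤ epo c K') (h : K' ≤ K) :
    tm c K' ≤ tm c K := by
  have hEK : 9 ≤ epo c K := hE.trans (epo_mono h)
  have hs := sst_le c K
  rcases Nat.lt_or_ge K' (sst c K) with h1 | h1
  · have h2 := tm_le c K'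
    have h3 : sst c K - 1 ≤ tm c K := by
      unfold tm
      split_ifs <;> omega
    omega
  · have hep : epo c K' = epo c K := by
      have a := epo_mono (c := c) h1
      rw [epo_sst hc (show 4 ≤ epo c K by omega)] at a
      have b := epo_mono (c := c) h
      omega
    have hd : 8 * Gq c (epo c K') ∣ sst c K := by rw [hep]; exact dvd_sst c K
    have hlt := lt_sst c K
    obtain ⟨s1, s2⟩ := sst_eq_of hc hd h1 (by rw [hep]; omega)
    have e2 : K % (8 * Gq c (epo c K)) = K - sst c K := by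
      unfold sst
      have := Nat.mod_le K (8 * Gq c (epo c K))
      omega
    have hph : ph c K' ≤ ph c K := by
      unfold ph
      rw [s2, hep, e2]
      exact Nat.div_le_div_right (by omega)
    unfold tm
    rw [s1]
    split_ifs <;> omega

/-- a unit with an event which is not done before the slot of `K'` -/
lemma alive_tm (hc : 10 ≤ c) {x b f K' : ℕ} (hE : 9 ≤ epo c K') (hx : x ≤ 7 * b) (hbx : b ≤ x)
    (hf : f ≤ b) (hn : ¬ x ≤ opp c (cls c f) (tm c K')) :
    K' < 8 * b ∧ K' < x + 2 * Tq c (epo c K') + 3 * Gq c (epo c K') ∧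
      128 * (CC c * Tq c (epo c K')) ≤ Wd c b := by
  have hE0 := epo_tm hc hE
  have h1 := lt_tm c K'
  have h2 := Gq_le c (epo c K')
  have h3 := Tq_small (c := c) (t := K') hc (by omega)
  have h4 := Tq_small (c := c) (t := tm c K') hc (by omega)
  have hhalf := tm_ge_half hc hE
  have hTT : Tq c (epo c (tm c K')) ≤ Tq c (epo c K') :=
    Tq_mono hc (by omega) (epo_mono (tm_le c K'))
  rcases Nat.lt_or_ge (8 * tm c K') f with h0 | h0
  · have h7 : K' < 8 * b := by omega
    exact ⟨h7, by omega, Tq_le_Wd hc (by omega) h7⟩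
  · have h6 := lt_opp_anchor hc (f := f) (t := tm c K') (by omega) h0
    have h7 : K' < 8 * b := by omega
    exact ⟨h7, by omega, Tq_le_Wd hc (by omega) h7⟩

/-- the last unit of a `P` run -/
lemma P_last (hc : 10 ≤ c) {t e g : ℕ} (ht : 9 ≤ epo c t) (he : 0 < e) (hew : e ≤ wb c t)
    (hk : kid c t (e - 1) = .P g) (hcut : e = wb c t ∨ kid c t e ≠ .P g) :
    un c (e - 1) + Wd c (un c (e - 1)) = e ∧ isM c t (un c (e - 1)) ∧
      gM c t (un c (e - 1)) = g := by
  obtain ⟨hM, hg⟩ := (kid_P_iff t (e - 1) g).mp (Or.inl hk)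
  refine ⟨?_, hM, hg⟩
  rw [Wd_un hc]
  rcases hcut with h1 | h1
  · rw [h1]
    exact (wb_prev hc ht).1
  · exact (un_of_ne hc he (by rw [hk]; exact fun h => h1 h.symm)).2

end Pool.Agent.Helper29.E2
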