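import Mathlib
import Pool.Agent.Helper99.E2.Far1

/-!
# E-T (MP_12a1af_nt), phase 2: far inequalities, the `P` run of the larger time (units)
-/

namespace Pool.Agent.Helper29.E2

open Pool.Agent.Helper29.ETK

variable {c : ℕ}

lemma Ut_level_mono (hc : 10 ≤ c) {l l' b : ℕ} (hb : un c b = b) (hj : j0 c b < l) (h : l ≤ l')
    (hl : l' ≤ lg c b + 1) : Ut c l b ≤ Ut c l' b := by
  induction l', h using Nat.le_induction with
  | base => exact le_refl _
  | succ n hn ih =>
    have h1 := ih (by omega)
    have hj' : ep c b + 8 < l := hj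
    have h2 := Ut_le_Dt (c := c) hc (l := n) hb (by omega) (by omega)
    have h3 := Dt_add_le_Ut (c := c) hc (l := n) (b := b) (b' := b) (by omega) rfl
    omega

/-- the last unit `u` of a `P` run of `K` against a unit `b'` which is at `K'` in an `R` state or in
transition -/
theorem F1_core (hc : 10 ≤ c) {K K' u b' : ℕ} (hE : 9 ≤ epo c K') (hKK : K' ≤ K)
    (hu : un c u = u) (hb' : un c b' = b') (hM : isM c K u) (hg : gM c K u ≤ b') (hbu : b' < u)
    (hR : (¬ isP c K' b' ∧ ¬ isP c (tm c K') b') ∨ acts c K' b') :
    (10 * CC c + 9) * (u + Wd c u - (b' + Wd c b')) ≤ 10 * CC c * (K - K') := by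
  have hEK : 9 ≤ epo c K := hE.trans (epo_mono hKK)
  have hE0 := epo_tm hc hE
  have htm := tm_mono hc hE hKK
  -- `b'` is not finished
  have hnf : ¬ fin c (tm c K') b' := by
    rcases hR with h | h
    · exact fun hf => h.2 (Or.inl hf)
    · intro hf
      exact h ⟨fun _ => Or.inl (fin_mono (tm_le c K') hf), fun _ => Or.inl hf⟩
  obtain ⟨-, -, h15⟩ := big_of_not_fin hc (by omega) hnf
  have hlu : lg c b' ≤ lg c u := lg_mono hbu.le
  obtain ⟨l, hl, hj, hgl, hU, hD⟩ := gM_gl hc hEK hu hM
  have hj := hj (by omega)
  have hUK : Ut c l u ≤ K := by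
    unfold exU at hU
    exact hU.trans (opp_le _ _ _)
  have hadd := unit_add_le hc hb' hu hbu
  have hWu : Wd c b' ≤ Wd c u := Wd_mono hbu.le
  -- the main inequality
  have main : ∀ x, ¬ x ≤ opp c (cls c (gl c l b')) (tm c K') ∨
      ¬ x ≤ opp c (cls c 0) (tm c K') → x ≤ 7 * b' → b' ≤ x →
      x + sl c (u + Wd c u - (b' + Wd c b')) ≤ K →
      (10 * CC c + 9) * (u + Wd c u - (b' + Wd c b')) ≤ 10 * CC c * (K - K') := by
    intro x h1 h2 h3 h4
    have h5 : K' < x + 2 * Tq c (epo c K') + 3 * Gq c (epo c K') ∧
        128 * (CC c * Tq c (epo c K')) ≤ Wd c b' := by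
      rcases h1 with h1 | h1
      · exact (alive_tm hc hE h2 h3 (gl_le c l b') h1).2
      · exact (alive_tm hc hE h2 h3 (Nat.zero_le b') h1).2
    refine far_arith hc (T := Tq c (epo c K')) (G := Gq c (epo c K')) (W := Wd c b') ?_ ?_ ?_
      h5.2 (Gq_le c _)
    · omega
    · refine Nat.dvd_sub ?_ ?_
      · exact (CC_dvd_Wd (by omega)).trans (Dvd.dvd.add (un_eq_iff.mp hu) (dvd_refl _))
      · exact (CC_dvd_Wd (by omega)).trans (Dvd.dvd.add (un_eq_iff.mp hb') (dvd_refl _))
    · right; omega
  rcases Nat.eq_or_lt_of_le hl with hl0 | hl0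
  · -- anchor 0
    subst hl0
    have h1 := Ut_top_diff hc (b := b') (b' := u) (by omega) hb' hbu.le
    apply main (Ut c (lg c b' + 1) b') (Or.inr ?_) (Ut_le hc (by omega) (le_refl _)) (le_Ut _ _ _)
      (by omega)
    have : ¬ exU c (tm c K') (lg c b' + 1) b' := hnf
    unfold exU at this
    rw [gl_top hc] at this
    exact this
  · have hl2 : l ≤ lg c u := by omega
    have hu0 : u ≠ 0 := by omega
    have hgpos := gl_pos (c := c) hu0 hl2
    have hgb : gl c l b' = gl c l u :=
      gl_eq (dvd_gl c l u) (by rw [← hgl]; exact hg) (by have := lt_gl c l u; omega)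
    have hlg : lg c u = lg c b' := lg_cell' hc hu0 hl2 hgb.symm
    have hWW : Wd c b' = Wd c u := by unfold Wd ep; rw [hlg]
    have hj0 : j0 c b' = j0 c u := by unfold j0 ep; rw [hlg]
    have hnD : ¬ exD c (tm c K) l u := by
      rcases hD with h | h
      · omega
      · exact h.2 (by omega)
    have hjl : ep c u + 8 < l := hj
    have hDD : ∀ τ, exD c τ l b' → exD c τ l u := fun τ h =>
      exD_of_le hc hb' hu (by omega) (by omega) hgb hbu.le hlg h
    have hnU : ¬ exU c (tm c K') l b' := by
      intro hU'
      have hle := (exU_iff hc (t := tm c K') (by omega) hb' (by omega) (by omega)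
        (by omega)).mp hU'
      by_cases hP0 : isP c (tm c K') b'
      · -- a down event in progress
        have ha : acts c K' b' := by
          rcases hR with h | h
          · exact absurd hP0 h.2
          · exact h
        obtain ⟨-, -, -, -, hcase⟩ := acts_cases hc hE hb' ha
        rcases hcase with h1 | h1
        · exact h1.2.1 hP0
        · obtain ⟨q1, q2, q3, q4, q5, q6, -⟩ := h1
          rcases Nat.eq_or_lt_of_le hle with h3 | h3
          · -- the same level
            rw [q3, ← h3] at q4
            have hnD' : ¬ exD c (tm c K') l b' := by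
              intro h
              rcases (exD_iff hc (t := tm c K') (by omega) hb' (by omega) (by omega)
                (by omega)).mp h with h4 | h4
              · omega
              · exact h4.2 hP0
            have hal := alive_tm hc hE (Dt_le hc (b := b') (l := l) (by omega) (by omega)
              (by omega)) (le_Dt _ _ _) (gl_le c l b') hnD'
            have hdiff := Dt_diff (c := c) (l := l) (b := b') (b' := u) (by omega) hu
              (by omega) hgb hbu.le
            have hsl := le_sl c (u - b')
            have hs := sst_le c K'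
            have hopp := lt_opp_anchor hc (f := gl c l b') (t := tm c K') (by omega) (by
              have a1 := gl_le c l b'
              have a2 := le_Dt c l b'
              have a3 := tm_ge_half hc hE
              omega)
            have hTT : Tq c (epo c (tm c K')) ≤ Tq c (epo c K') :=
              Tq_mono hc (by omega) (epo_mono (tm_le c K'))
            have hlt := lt_tm c K'
            have hGq := Gq_le c (epo c K')
            have hCT : 1024 * Tq c (epo c K') ≤ CC c * Tq c (epo c K') :=
              Nat.mul_le_mul_right _ (CC_ge hc)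
            have hal3 := hal.2.2
            have hex : exD c (tm c K') l u := by
              unfold exD
              rw [← hgb]
              omega
            exact hnD (exD_mono htm hex)
          · have h4 := (exD_iff hc (t := tm c K') (by omega) hb' (by omega) (l := l) (by omega)
              (by omega)).mpr (Or.inl h3)
            exact hnD (exD_mono htm (hDD _ h4))
      · have h4 := (exD_iff hc (t := tm c K') (by omega) hb' (by omega) (l := l) (by omega)
          (by omega)).mpr (by
            rcases Nat.eq_or_lt_of_le hle with h5 | h5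
            · exact Or.inr ⟨h5, hP0⟩
            · exact Or.inl h5)
        exact hnD (exD_mono htm (hDD _ h4))
    have hdiff := Ut_diff (c := c) (l := l) (b := b') (b' := u) (by omega) hb' (by
      have : ep c b' = ep c u := by unfold ep; rw [hlg]
      omega) hgb hWW hbu.le
    apply main (Ut c l b') (Or.inl hnU) (Ut_le hc (by omega) (by omega)) (le_Ut _ _ _)
    have e : u + Wd c u - (b' + Wd c b') = u - b' := by omega
    rw [e, ← hdiff]
    exact hUK

/-- the last unit `u` of a `P` run of `K` against a higher anchor `g'` which is alive at `K'` -/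
theorem F1P_core (hc : 10 ≤ c) {K K' u g' : ℕ} (hE : 9 ≤ epo c K') (hKK : K' ≤ K)
    (hu : un c u = u) (hb' : un c g' = g') (hM : isM c K u) (hg : gM c K u < g') (hbu : g' ≤ u)
    (hM' : isM c K' g') (hg' : gM c K' g' = g') :
    (10 * CC c + 9) * (u + Wd c u - g') ≤ 10 * CC c * (K - K') := by
  have hEK : 9 ≤ epo c K := hE.trans (epo_mono hKK)
  have hE0 := epo_tm hc hE
  -- `g'` is not finished
  have hnf : ¬ fin c (tm c K') g' := by
    intro hf
    have hP0 : isP c (tm c K') g' := Or.inl hf
    unfold gM at hg'
    rw [if_pos hP0, ga_of_fin hc hf] at hg'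
    omega
  obtain ⟨-, -, h15⟩ := big_of_not_fin hc (by omega) hnf
  have hlu : lg c g' ≤ lg c u := lg_mono hbu
  obtain ⟨l, hl, hj, hgl, hU, -⟩ := gM_gl hc hEK hu hM
  have hj := hj (by omega)
  obtain ⟨l', hl', hj', hgl', hU', hD'⟩ := gM_gl hc hE hb' hM'
  have hj' := hj' (by omega)
  rw [hg'] at hgl'
  have hl'2 : l' ≤ lg c g' := by
    by_contra hn
    have : l' = lg c g' + 1 := by omega
    rw [this, gl_top hc] at hgl'
    omega
  have hnD' : ¬ exD c (tm c K') l' g' := by
    rcases hD' with h | h
    · omega
    · exact h.2 (by omega)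
  have hUK : Ut c l u ≤ K := by
    unfold exU at hU
    exact hU.trans (opp_le _ _ _)
  have hjl : ep c u + 8 < l := hj
  have hjl' : ep c g' + 8 < l' := hj'
  obtain ⟨-, k2, k3⟩ := alive_tm hc hE (Dt_le hc (b := g') (l := l') (by omega) (by omega) hl'2)
    (le_Dt _ _ _) (gl_le c l' g') hnD'
  have hWl : Wd c g' ≤ CC c ^ l' := pow_le c (by omega)
  have hWu : Wd c g' ≤ Wd c u := Wd_mono hbu
  -- passing of the unit `g'` by the tent of `K`
  have key : Dt c l' g' + 2 * CC c ^ l' + sl c (u + Wd c u - (g' + Wd c g')) ≤ K := by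
    rcases Nat.eq_or_lt_of_le hl with hl0 | hl0
    · subst hl0
      have h1 := Ut_top_diff hc (b := g') (b' := u) (by omega) hb' hbu
      have h2 := Ut_level_mono (c := c) hc (l := l' + 1) (l' := lg c g' + 1) hb' (by omega)
        (by omega) (le_refl _)
      have h3 := Dt_add_le_Ut (c := c) hc (l := l') (b := g') (b' := g') (by omega) rfl
      omega
    · have hl2 : l ≤ lg c u := by omega
      have hu0 : u ≠ 0 := by omega
      have hgb : gl c l g' = gl c l u :=
        gl_eq (dvd_gl c l u) (by rw [← hgl]; exact hg.le) (by have := lt_gl c l u; omega)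
      have hlg : lg c u = lg c g' := lg_cell' hc hu0 hl2 hgb.symm
      have hWW : Wd c g' = Wd c u := by unfold Wd ep; rw [hlg]
      have hll : l' < l := by
        by_contra hn
        have := gl_mono_level (c := c) (s := g') (show l ≤ l' by omega)
        omega
      have hepe : ep c g' = ep c u := by unfold ep; rw [hlg]
      have h1 := Ut_diff (c := c) (l := l) (b := g') (b' := u) (by omega) hb' (by omega)
        hgb hWW hbu
      have h2 := Ut_level_mono (c := c) hc (l := l' + 1) (l' := l) hb' (by omega)
        (by omega) (by omega)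
      have h3 := Dt_add_le_Ut (c := c) hc (l := l') (b := g') (b' := g') (by omega) rfl
      have e : u + Wd c u - (g' + Wd c g') = u - g' := by omega
      rw [e]
      omega
  have hadd : g' + Wd c g' ≤ u + Wd c u := by omega
  have hd : CC c ∣ u + Wd c u - (g' + Wd c g') := by
    refine Nat.dvd_sub ?_ ?_
    · exact (CC_dvd_Wd (by omega)).trans (Dvd.dvd.add (un_eq_iff.mp hu) (dvd_refl _))
    · exact (CC_dvd_Wd (by omega)).trans (Dvd.dvd.add (un_eq_iff.mp hb') (dvd_refl _))
  have hsl : sl c (u + Wd c u - g') = sl c (u + Wd c u - (g' + Wd c g')) + sl c (Wd c g') := by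
    rw [← sl_add hd]
    congr 1
    omega
  have hslW : sl c (Wd c g') ≤ 2 * Wd c g' := by
    have := sl_le hc (Wd c g')
    omega
  refine far_arith hc (T := Tq c (epo c K')) (G := Gq c (epo c K')) (W := Wd c g') ?_ ?_ ?_
    k3 (Gq_le c _)
  · omega
  · have e : u + Wd c u - g' = (u + Wd c u - (g' + Wd c g')) + Wd c g' := by omega
    rw [e]
    exact Dvd.dvd.add hd (CC_dvd_Wd (by omega))
  · right; omega

end Pool.Agent.Helper29.E2
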