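import Mathlib
import Pool.Agent.Helper99.E2.Far4

/-!
# E-T (MP_12a1af_nt), phase 2: position of the regions of one time (K3, K4)
-/

namespace Pool.Agent.Helper29.E2.K99

open Pool.Agent.Helper29.ETK

variable {c : ℕ}

/-- the kind of a `P` region with the anchor `g` -/
def IsPk (g : ℕ) (k : Kid) : Prop := k = .P g ∨ ∃ b, k = .PT g b

/-- the kind of an `R` region with the top `v` -/
def IsRk (v : ℕ) (k : Kid) : Prop := k = .R v ∨ k = .RT v ∨ k = .RTh v

lemma kidP_isPk (c t g : ℕ) : IsPk g (kidP c t g) := by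
  unfold kidP
  split_ifs
  · exact Or.inr ⟨_, rfl⟩
  · exact Or.inl rfl

lemma kidR_isRk (c t v : ℕ) : IsRk v (kidR c t v) := by
  unfold kidR
  split_ifs
  · exact Or.inr (Or.inl rfl)
  · exact Or.inl rfl
  · exact Or.inr (Or.inr rfl)

lemma IsPk.inj {g g' : ℕ} {k : Kid} (h : IsPk g k) (h' : IsPk g' k) : g = g' := by
  rcases h with rfl | ⟨b, rfl⟩ <;> rcases h' with h' | ⟨b', h'⟩ <;> simp_all

lemma IsRk.inj {v v' : ℕ} {k : Kid} (h : IsRk v k) (h' : IsRk v' k) : v = v' := by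
  rcases h with rfl | rfl | rfl <;> rcases h' with h' | h' | h' <;> simp_all

lemma IsPk.not_isRk {g v : ℕ} {k : Kid} (h : IsPk g k) : ¬ IsRk v k := by
  rcases h with rfl | ⟨b, rfl⟩ <;> simp [IsRk]

/-- the two types of a position -/
lemma kid_cases (c t s : ℕ) :
    (∃ t0, (t0 = tm c t ∨ t0 = t) ∧ isP c t0 (un c s) ∧ IsPk (ga c t0 (un c s)) (kid c t s)) ∨
    (¬ isP c (tm c t) (un c s) ∧ ¬ isP c t (un c s) ∧ IsRk (va c t (un c s)) (kid c t s)) := by
  unfold kid
  by_cases h1 : isP c (tm c t) (un c s)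
  · left
    refine ⟨_, Or.inl rfl, h1, ?_⟩
    rw [if_pos h1]
    exact kidP_isPk _ _ _
  · by_cases h2 : isP c t (un c s)
    · left
      refine ⟨_, Or.inr rfl, h2, ?_⟩
      rw [if_neg h1, if_pos h2]
      exact kidP_isPk _ _ _
    · right
      refine ⟨h1, h2, ?_⟩
      rw [if_neg h1, if_neg h2]
      exact kidR_isRk _ _ _

lemma kid_P_spec {t s g : ℕ} (h : IsPk g (kid c t s)) :
    ∃ t0, (t0 = tm c t ∨ t0 = t) ∧ isP c t0 (un c s) ∧ g = ga c t0 (un c s) := by
  rcases kid_cases c t s with ⟨t0, h0, h1, h2⟩ | ⟨h1, h2, h3⟩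
  · exact ⟨t0, h0, h1, h.inj h2⟩
  · exact absurd h3 h.not_isRk

lemma kid_R_spec {t s v : ℕ} (h : IsRk v (kid c t s)) :
    ¬ isP c (tm c t) (un c s) ∧ ¬ isP c t (un c s) ∧ v = va c t (un c s) := by
  rcases kid_cases c t s with ⟨t0, h0, h1, h2⟩ | ⟨h1, h2, h3⟩
  · exact absurd h h2.not_isRk
  · exact ⟨h1, h2, h.inj h3⟩

/-- the values of `kid` -/
lemma kid_eq_P {t s g : ℕ} (h : IsPk g (kid c t s)) : kid c t s = kidP c t g := by
  unfold kid at h ⊢
  split_ifs at h ⊢
  · rw [(kidP_isPk c t _).inj h]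
  · rw [(kidP_isPk c t _).inj h]
  · exact absurd (kidR_isRk c t _) h.not_isRk

lemma kid_eq_R {t s v : ℕ} (h : IsRk v (kid c t s)) : kid c t s = kidR c t v := by
  unfold kid at h ⊢
  split_ifs at h ⊢
  · exact absurd h (kidP_isPk c t _).not_isRk
  · exact absurd h (kidP_isPk c t _).not_isRk
  · rw [(kidR_isRk c t _).inj h]

/-- the level of a `P` state -/
lemma isP_level (hc : 10 ≤ c) {t0 b : ℕ} (ht : 8 ≤ epo c t0) (hb : un c b = b)
    (h : isP c t0 b) :
    lev c t0 b ≤ lg c b + 1 ∧ (16 ≤ lg c b → j0 c b < lev c t0 b) ∧ ep c b ≤ lev c t0 b ∧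
    exU c t0 (lev c t0 b) b ∧ (lev c t0 b ≤ lg c b → ¬ exD c t0 (lev c t0 b) b ∧
      16 ≤ lg c b ∧ ¬ fin c t0 b) := by
  by_cases hf : fin c t0 b
  · rw [lev_of_fin hf]
    refine ⟨le_rfl, ?_, ?_, hf, ?_⟩
    · intro h12; unfold j0 ep; omega
    · unfold ep; omega
    · intro h; omega
  · obtain ⟨-, -, h15⟩ := big_of_not_fin hc ht hf
    have hj := j0_lt_of_isP (c := c) (by omega) h
    have hl := lev_le (c := c) t0 b (by omega)
    refine ⟨hl, fun _ => hj, ?_, (exU_iff hc ht hb (by omega) hj hl).mpr le_rfl, ?_⟩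
    · unfold j0 at hj; omega
    · intro hlt
      refine ⟨?_, by omega, hf⟩
      intro hD
      rcases (exD_iff hc ht hb (by omega) hj hlt).mp hD with h1 | h1
      · omega
      · exact h1.2 h

lemma epo_of_tm {t t0 : ℕ} (hc : 10 ≤ c) (ht : 9 ≤ epo c t) (h : t0 = tm c t ∨ t0 = t) :
    8 ≤ epo c t0 ∧ t0 ≤ t ∧ t ≤ t0 + 3 * Gq c (epo c t) ∧ epo c t ≤ epo c t0 + 1 := by
  rcases h with rfl | rfl
  · have := epo_tm (c := c) hc ht
    exact ⟨by omega, tm_le c t, lt_tm c t, this⟩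
  · exact ⟨by omega, le_rfl, by omega, by omega⟩

/-- (K3) -/
theorem K3 (hc : 10 ≤ c) {K s g : ℕ} (ht : 9 ≤ epo c K) (h : IsPk g (kid c K s)) :
    ∃ l, l ≤ lg c s + 1 ∧ gl c l s = g ∧ (16 ≤ lg c s → j0 c s < l) ∧ Ut c l (un c s) ≤ K := by
  obtain ⟨t0, h0, h1, h2⟩ := kid_P_spec h
  obtain ⟨h5, hle, -, -⟩ := epo_of_tm hc ht h0
  obtain ⟨h3, h4, h6, h7, -⟩ := isP_level hc h5 (un_un hc s) h1
  rw [lg_un hc] at h3 h4
  rw [j0_un hc] at h4
  rw [ep_un hc] at h6
  refine ⟨lev c t0 (un c s), h3, ?_, h4, ?_⟩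
  · rw [h2]
    unfold ga
    exact (gl_un hc h6).symm
  · unfold exU at h7
    exact h7.trans ((opp_le _ _ _).trans hle)

/-- (K3), numbers: `e` is the end of the unit of `s` -/
theorem K3' (hc : 10 ≤ c) {K s g : ℕ} (ht : 9 ≤ epo c K) (h : IsPk g (kid c K s)) :
    ∃ l, l ≤ lg c s + 1 ∧ gl c l s = g ∧ (16 ≤ lg c s → j0 c s < l) ∧
      un c s + Wd c s ≤ g + CC c ^ l ∧ g + 5 * CC c ^ (l - 1) + sl c (un c s + Wd c s - g) ≤ K := by
  obtain ⟨l, h1, h2, h3, h4⟩ := K3 hc ht h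
  have hl : ep c s ≤ l := by
    rcases Nat.lt_or_ge (lg c s) 16 with h5 | h5
    · -- a small position is finished
      obtain ⟨t0, h0, h6, h7⟩ := kid_P_spec h
      obtain ⟨h8, hle, -, -⟩ := epo_of_tm hc ht h0
      by_contra hn
      -- then `l < ep`, `g = gl l s`, while the anchor is `0`
      have hf : fin c t0 (un c s) := by
        by_contra hf
        have := (big_of_not_fin hc h8 hf).2.2
        rw [lg_un hc] at this
        omega
      have h9 : g = 0 := by
        rw [h7]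
        unfold ga
        rw [lev_of_fin hf]
        exact gl_top hc _
      have h10 : s < CC c ^ l := by
        have := lt_gl c l s
        rw [h2, h9] at this
        omega
      have h11 : 1 ≤ lg c s := by unfold ep at hn; omega
      have h12 : CC c ^ lg c s ≤ s := lg_le c (by
        rintro rfl
        simp [lg] at h11)
      have h13 : CC c ^ l ≤ CC c ^ lg c s := pow_le c (by unfold ep at hn; omega)
      omega
    · have := h3 h5
      unfold j0 at this
      omega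
  refine ⟨l, h1, h2, h3, ?_, ?_⟩
  · have h5 := un_add_le (c := c) (l := l) (b := un c s) (un_un hc s) (by rw [ep_un hc]; exact hl)
    rw [Wd_un hc, gl_un hc hl, h2] at h5
    exact h5
  · unfold Ut at h4
    rw [gl_un hc hl, h2, Wd_un hc] at h4
    exact h4

lemma j0_mono {s s' : ℕ} (h : s ≤ s') : j0 c s ≤ j0 c s' := by
  unfold j0 ep
  have := lg_mono (c := c) h
  omega

/-- the unit of a position below the top zone -/
lemma newborn_le (hc : 10 ≤ c) {K s : ℕ} (hs : s < wb c K) :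
    gl c (ep c s) s + CC c ^ ep c s + 2 * Wd c s ≤ K ∧
      gl c (ep c s) s + CC c ^ ep c s ≤ wb c K := by
  have h1 := tU_of_lt_wb (un_un hc s) (lt_of_le_of_lt (un_le c s) hs)
  have h2 := lt_tU c 3 (un c s)
  have h3 := unit_add_le hc (un_un hc s) (wb_spec hc K).1 (lt_of_le_of_lt (un_le c s) hs)
  rw [Wd_un hc] at h2 h3
  have e1 : gl c (ep c s) s = un c s := rfl
  have e2 : CC c ^ ep c s = Wd c s := rfl
  rw [e1, e2]
  omega

/-- (K4) -/
theorem K4 (hc : 10 ≤ c) {K s v : ℕ} (ht : 9 ≤ epo c K) (hs : s < wb c K)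
    (h : IsRk v (kid c K s)) :
    ∃ l, ep c s ≤ l ∧ l ≤ lg c s ∧ v = gl c l s + CC c ^ l ∧ v + 2 * Wd c s ≤ K ∧
      (l = ep c s ∨ (j0 c s < l ∧ Dt c l (un c s) ≤ K)) := by
  obtain ⟨-, h1, h2⟩ := kid_R_spec h
  have hf : ¬ fin c K (un c s) := fun hf => h1 (Or.inl hf)
  obtain ⟨-, -, h15⟩ := big_of_not_fin hc (by omega) hf
  have hj := jn_le_lev (c := c) K (un c s) (by omega)
  have hjc := lev_cases (c := c) K (un c s) (by omega)
  have hlt := lev_le_of_not_isP (c := c) (by omega) h1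
  have hu := un_un (c := c) hc s
  have hD : j0 c (un c s) < lev c K (un c s) → Dt c (lev c K (un c s)) (un c s) ≤ K := by
    intro h3
    have := (exD_iff hc (by omega) hu (by omega) h3 hlt).mpr (Or.inr ⟨rfl, h1⟩)
    unfold exD at this
    exact this.trans (opp_le _ _ _)
  rw [lg_un hc] at hlt h15
  rw [j0_un hc] at hD hjc
  rw [ep_un hc] at hj hjc
  set l := lev c K (un c s) with hl
  have hep : ep c s ≤ l := by omega
  have hv : v = gl c l s + CC c ^ l := by
    rw [h2]; unfold va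
    rw [← hl, gl_un hc hep]
  refine ⟨l, hj, hlt, hv, ?_, ?_⟩
  · rcases hjc with h3 | h3
    · rw [hv, h3]
      exact (newborn_le hc hs).1
    · have h4 := hD h3
      unfold Dt at h4
      rw [gl_un hc hep] at h4
      have h5 : un c s ≤ gl c l s + CC c ^ l := by
        have := lt_gl c l s
        have := un_le c s
        omega
      have h6 := le_sl c (2 * CC c ^ l + gl c l s - un c s)
      have h7 : Wd c s ≤ CC c ^ (l - 1) := pow_le c (by unfold j0 at h3; omega)
      omega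
  · rcases hjc with h3 | h3
    · exact Or.inl h3
    · exact Or.inr ⟨h3, hD h3⟩

/-- (K4), numbers -/
theorem K4' (hc : 10 ≤ c) {K s v : ℕ} (ht : 9 ≤ epo c K) (hs : s < wb c K)
    (h : IsRk v (kid c K s)) :
    s < v ∧ v + 2 * Wd c s ≤ K ∧ (CC c + 1) * (v - un c s) ≤ CC c * (K - v) := by
  have hCC := CC_ge hc
  obtain ⟨l, h1, h2, h3, h4, h5⟩ := K4 hc ht hs h
  obtain ⟨-, hnP, -⟩ := kid_R_spec h
  have hf : ¬ fin c K (un c s) := fun hf => hnP (Or.inl hf)
  obtain ⟨-, -, h15⟩ := big_of_not_fin hc (by omega) hf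
  rw [lg_un hc] at h15
  have hsv : s < v := by rw [h3]; exact lt_gl _ _ _
  refine ⟨hsv, h4, ?_⟩
  have hep : ep c s ≤ l := by omega
  have hug : gl c l s ≤ un c s := le_un (Dvd.dvd.trans (Wd_dvd_pow hep) (dvd_gl _ _ _)) (gl_le _ _ _)
  rcases h5 with h5 | ⟨h5, h6⟩
  · have h7 : v - un c s ≤ Wd c s := by
      rw [h3]
      have : CC c ^ l ≤ Wd c s := by rw [h5]; exact le_rfl
      omega
    have h8 : 2 * Wd c s ≤ K - v := by omega
    calc (CC c + 1) * (v - un c s) ≤ (CC c + CC c) * Wd c s :=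
          Nat.mul_le_mul (by omega) h7
      _ = CC c * (2 * Wd c s) := by ring
      _ ≤ CC c * (K - v) := Nat.mul_le_mul_left _ h8
  · unfold Dt at h6
    rw [gl_un hc hep] at h6
    have hd : CC c ∣ 2 * CC c ^ l + gl c l s - un c s := by
      have := dvd_of_unit' (c := c) (l := l) (b := un c s) (by rw [lg_un hc]; omega)
        (un_un hc s) (by rw [ep_un hc]; exact hep)
      rw [gl_un hc hep] at this
      exact this
    set X := 2 * CC c ^ l + gl c l s - un c s with hX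
    have h8 := CC_mul_sl hd
    -- `v - un = X - C ^ l`
    have h9 : v - un c s + CC c ^ l = X := by
      have := un_le c s
      omega
    have h10 : gl c l s + sl c X ≤ K := by omega
    have h11 : sl c X ≤ K - v + CC c ^ l := by omega
    have h12 : (CC c + 1) * X ≤ CC c * (K - v) + CC c * CC c ^ l := by
      rw [← h8, ← mul_add]
      exact Nat.mul_le_mul_left _ h11
    have h13 : (CC c + 1) * X = (CC c + 1) * (v - un c s) + (CC c + 1) * CC c ^ l := by
      rw [← h9]; ring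
    have h14 : CC c * CC c ^ l ≤ (CC c + 1) * CC c ^ l := Nat.mul_le_mul_right _ (by omega)
    omega

end Pool.Agent.Helper29.E2.K99
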