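import Mathlib
import Pool.Agent.Helper99.E2.K34

/-!
# E-T (MP_12a1af_nt), phase 2: the ends of the cells of a time are ends of regions of the
earlier times (K-lam)
-/

namespace Pool.Agent.Helper29.E2.K99

open Pool.Agent.Helper29.ETK

variable {c : ℕ}

/-- an event `x` of the unit `b` which is not done at `t0` is late -/
lemma late (hc : 10 ≤ c) {t0 K x b f : ℕ} (ht : 8 ≤ epo c t0) (htK : 8 ≤ epo c K)
    (hK : K ≤ t0 + 3 * Gq c (epo c K)) (hE : epo c K ≤ epo c t0 + 1)
    (hx : x ≤ 7 * b) (hf : f ≤ b) (hbx : b ≤ x) (hn : ¬ x ≤ opp c (cls c f) t0) :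
    K < x + Wd c b := by
  have h1 : t0 < 8 * b := alive hc ht hx hf hn
  obtain ⟨h2, h3⟩ := ep_ge_of_alive hc ht h1
  have h4 := Tq_le_Wd' hc ht h1
  have h7 := Gq_le c (epo c K)
  have h8 : 128 * Tq c (epo c K) ≤ Wd c b := by
    rw [Tq_eq hc (by omega)]
    exact pow_le c (by omega)
  have h9 := Tq_small hc htK
  by_contra hn'
  push Not at hn'
  have h5 := lt_opp_anchor (c := c) hc ht (f := f) (t := t0) (by omega)
  omega

/-- a down event which is not done at `t0` is late -/
lemma late_of_not_exD (hc : 10 ≤ c) {t0 K l g : ℕ} (ht : 8 ≤ epo c t0) (htK : 8 ≤ epo c K)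
    (hK : K ≤ t0 + 3 * Gq c (epo c K)) (hE : epo c K ≤ epo c t0 + 1)
    (h12 : 16 ≤ lg c g) (hl : j0 c g < l) (hl2 : l ≤ lg c g) (hD : ¬ exD c t0 l g) :
    K < Dt c l g + Wd c g :=
  late hc ht htK hK hE (Dt_le hc (by omega) (by omega) hl2) (gl_le _ _ _) (le_Dt _ _ _) hD

/-- an up event which is not done at `t0` is late -/
lemma late_of_not_exU (hc : 10 ≤ c) {t0 K l g : ℕ} (ht : 8 ≤ epo c t0) (htK : 8 ≤ epo c K)
    (hK : K ≤ t0 + 3 * Gq c (epo c K)) (hE : epo c K ≤ epo c t0 + 1)
    (h12 : 16 ≤ lg c g) (hl2 : l ≤ lg c g + 1) (hU : ¬ exU c t0 l g) :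
    K < Ut c l g + Wd c g :=
  late hc ht htK hK hE (Ut_le hc (by omega) hl2) (gl_le _ _ _) (le_Ut _ _ _) hU

/-- the time of an up event of a higher level at a unit below `g` -/
lemma le_Ut_of_level (hc : 10 ≤ c) {l l2 b g : ℕ} (hl : 1 ≤ l) (hll : l < l2)
    (hg : CC c ^ l ∣ g) (hb : g ≤ b + Wd c b) (h2 : gl c l2 b ≤ g) :
    Dt c l g + 2 * CC c ^ l ≤ Ut c l2 b := by
  have h1 : gl c l g = g := gl_eq hg le_rfl (by have := pow_pos' c l; omega)
  have h3 : Dt c l g = g + 5 * CC c ^ (l - 1) + (2 * CC c ^ l + 2 * CC c ^ (l - 1)) := by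
    unfold Dt
    rw [h1, show 2 * CC c ^ l + g - g = 2 * CC c ^ l by omega, sl_two_pow hl]
  have h4 := pow_pred_le (c := c) hc hl
  have h5 : CC c ^ l ≤ CC c ^ (l2 - 1) := pow_le c (by omega)
  have h6 := le_sl c (b + Wd c b - gl c l2 b)
  unfold Ut
  omega

/-- multiples of the powers are starts of units -/
lemma un_of_dvd {l g s : ℕ} (hg : CC c ^ l ∣ g) (h : ep c s ≤ l) (hlg : lg c g = lg c s) :
    un c g = g := by
  rw [un_eq_iff]
  refine Dvd.dvd.trans ?_ hg
  apply Wd_dvd_pow
  unfold ep at h ⊢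
  rw [hlg]
  exact h

/-- state of the bottom of a `P` region -/
lemma bottom_P (hc : 10 ≤ c) {K s g : ℕ} (ht : 9 ≤ epo c K) (h : IsPk g (kid c K s))
    (hg : 0 < g) :
    ∃ t0 l, (t0 = tm c K ∨ t0 = K) ∧ CC c ^ l ∣ g ∧ j0 c g < l ∧ l ≤ lg c g ∧ 16 ≤ lg c g ∧
      un c g = g ∧ isP c t0 g ∧ lev c t0 g = l ∧ ¬ exD c t0 l g ∧ g ≤ s ∧ s < g + CC c ^ l ∧
      lg c g = lg c s := by
  obtain ⟨t0, h0, h1, h2⟩ := kid_P_spec h
  obtain ⟨h5, hle, -, -⟩ := epo_of_tm hc ht h0
  have hu := un_un (c := c) hc s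
  have hnf : ¬ fin c t0 (un c s) := by
    intro hf
    unfold ga at h2
    rw [lev_of_fin hf, gl_top hc] at h2
    omega
  obtain ⟨-, -, h15⟩ := big_of_not_fin hc h5 hnf
  obtain ⟨h3, h4, h6, h7, h8⟩ := isP_level hc h5 hu h1
  have hlt : lev c t0 (un c s) ≤ lg c (un c s) := by
    rcases Nat.lt_or_ge (lev c t0 (un c s)) (lg c (un c s) + 1) with h9 | h9
    · omega
    · exact absurd (fin_of_lev (by omega) (by omega)) hnf
  obtain ⟨hnD, h12, -⟩ := h8 hlt
  have hj := h4 h12
  set l := lev c t0 (un c s) with hl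
  have hdg : CC c ^ l ∣ g := by rw [h2]; exact dvd_gl _ _ _
  have hgu : g ≤ un c s := by rw [h2]; exact gl_le _ _ _
  have hug : un c s < g + CC c ^ l := by rw [h2]; exact lt_gl _ _ _
  have hlg : lg c (un c s) = lg c g := lg_cell hc hdg hg hgu hug
  have hung : un c g = g := un_of_dvd (s := un c s) hdg h6 hlg.symm
  obtain ⟨h9, h10, h11⟩ := isP_below hc h5 hu hung (by omega) hnf h1 h2.ge hgu
  have hjg : j0 c g < l := by
    have : j0 c g = j0 c (un c s) := by unfold j0 ep; rw [hlg]
    omega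
  have hlg' : lg c g = lg c s := by rw [← hlg, lg_un hc]
  refine ⟨t0, l, h0, hdg, hjg, by omega, by omega, hung, h9, h10, ?_, ?_, ?_, hlg'⟩
  · intro hD
    rcases (exD_iff hc h5 hung (by omega) hjg (by omega)).mp hD with h13 | h13
    · omega
    · exact h13.2 h9
  · exact hgu.trans (un_le c s)
  · have h13 : gl c l s = g := by
      rw [h2]; unfold ga
      rw [gl_un hc (by rw [ep_un hc] at h6; exact h6)]
    have := lt_gl c l s
    omega

/-- (K-lam), `P` regions -/
theorem lam_P (hc : 10 ≤ c) {K K' s g : ℕ} (ht : 9 ≤ epo c K') (hKK : K' ≤ K)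
    (h : IsPk g (kid c K s)) (hg : 0 < g) :
    kid c K' (g - 1) ≠ kid c K' g := by
  have htK : 9 ≤ epo c K := ht.trans (epo_mono hKK)
  obtain ⟨t0, l, h0, h1, h2, h3, h15, h4, h5, h6, h7, -, -, -⟩ := bottom_P hc htK h hg
  obtain ⟨ht0, hle, hG, hE⟩ := epo_of_tm hc htK h0
  have hlate := late_of_not_exD hc ht0 (by omega) hG hE (by omega) h2 h3 h7
  have hl1 : 1 ≤ l := by unfold j0 at h2; omega
  have hgl : ∀ {k : ℕ}, k ≤ l → gl c k g = g := fun {k} hk =>
    gl_eq ((pow_dvd' c hk).trans h1) le_rfl (by have := pow_pos' c k; omega)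
  -- no up event of a higher level near `g` has a time before `K`
  have hno : ∀ b l2, g ≤ b + Wd c b → gl c l2 b ≤ g → l < l2 → K < Ut c l2 b := by
    intro b l2 hb1 hb2 hll
    have := le_Ut_of_level hc hl1 hll h1 hb1 hb2
    have : Wd c g ≤ CC c ^ l := pow_le c (by unfold j0 at h2; omega)
    omega
  -- position of `g - 1`
  set b1 := un c (g - 1) with hb1
  have hu1 : un c b1 = b1 := un_un hc _
  have hb1g : b1 ≤ g - 1 := un_le c _
  have hb1W : g ≤ b1 + Wd c b1 := by
    have := lt_un c (g - 1)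
    rw [Wd_un hc]
    omega
  intro heq
  rcases kid_cases c K' (g - 1) with ⟨t1, ht1, hp1, hk1⟩ | ⟨hn1, hn1', hk1⟩
  · -- `P` region
    rw [← hb1] at hp1 hk1
    rw [heq] at hk1
    obtain ⟨t2, ht2, hp2, hk2⟩ := kid_P_spec hk1
    obtain ⟨ht25, ht2K, -, -⟩ := epo_of_tm hc ht ht2
    rw [h4] at hp2 hk2
    obtain ⟨h8, h9, h10, h11, -⟩ := isP_level hc ht25 h4 hp2
    have h12 : gl c (lev c t2 g) g < g := by
      have h13 : ga c t1 b1 ≤ b1 := gl_le _ _ _
      rw [hk2] at h13
      unfold ga at h13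
      omega
    have h13 : l < lev c t2 g := by
      by_contra hn
      rw [hgl (by omega)] at h12
      omega
    have h14 := hno g _ (by omega) h12.le h13
    have h16 : Ut c (lev c t2 g) g ≤ t2 := by
      unfold exU at h11
      exact h11.trans (opp_le _ _ _)
    omega
  · -- `R` region
    rw [← hb1] at hn1 hn1' hk1
    have hk2 := hk1
    rw [heq] at hk2
    obtain ⟨-, -, hv⟩ := kid_R_spec hk2
    rw [h4] at hv
    have hnf : ¬ fin c K' b1 := fun hf => hn1' (Or.inl hf)
    obtain ⟨-, -, h15'⟩ := big_of_not_fin hc (by omega) hnf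
    have hj := jn_le_lev (c := c) K' b1 (by omega)
    have hlt := lev_le_of_not_isP (c := c) (by omega) hn1'
    have hv1 : g < va c K' g := by unfold va; exact lt_gl _ _ _
    rw [← hv] at hv1
    -- the level at `b1`
    have hlev : l < lev c K' b1 := by
      by_contra hn
      push Not at hn
      have h9 : CC c ^ lev c K' b1 ∣ g := (pow_dvd' c hn).trans h1
      have h10 : va c K' b1 ≤ g := by
        unfold va
        obtain ⟨k, hk⟩ := dvd_gl c (lev c K' b1) b1
        obtain ⟨m, hm⟩ := h9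
        have h11 : gl c (lev c K' b1) b1 < g := lt_of_le_of_lt (gl_le _ _ _) (by omega)
        rw [hk, hm] at h11
        rw [hk, hm]
        have h12 : k < m := lt_of_mul_lt_mul_left h11 (Nat.zero_le _)
        calc CC c ^ lev c K' b1 * k + CC c ^ lev c K' b1 = CC c ^ lev c K' b1 * (k + 1) := by ring
          _ ≤ _ := Nat.mul_le_mul_left _ h12
      omega
    have hjb : j0 c b1 < lev c K' b1 := by
      have : j0 c b1 ≤ j0 c g := j0_mono (by omega)
      omega
    have hU : exU c K' (lev c K' b1) b1 :=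
      (exU_iff hc (by omega) hu1 (by omega) hjb (by omega)).mpr le_rfl
    have h16 : Ut c (lev c K' b1) b1 ≤ K' := by
      unfold exU at hU
      exact hU.trans (opp_le _ _ _)
    have h17 := hno b1 _ hb1W ((gl_le _ _ _).trans (by omega)) hlev
    omega

/-- (K-lam), `R` regions -/
theorem lam_R (hc : 10 ≤ c) {K K' s v : ℕ} (ht : 9 ≤ epo c K') (hKK : K' ≤ K)
    (h : IsRk v (kid c K s)) :
    kid c K' (v - 1) ≠ kid c K' v := by
  have htK : 9 ≤ epo c K := ht.trans (epo_mono hKK)
  obtain ⟨h1, h2, h3⟩ := kid_R_spec h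
  have hu := un_un (c := c) hc s
  have hnf : ¬ fin c K (un c s) := fun hf => h2 (Or.inl hf)
  obtain ⟨-, -, h15⟩ := big_of_not_fin hc (by omega) hnf
  have hj := jn_le_lev (c := c) K (un c s) (by omega)
  have hlt := lev_le_of_not_isP (c := c) (by omega) h2
  have husv : un c s < v := by rw [h3]; unfold va; exact lt_gl _ _ _
  set l := lev c K (un c s) with hl
  have hepl : ep c (un c s) ≤ l := by omega
  have hvd : CC c ^ l ∣ v := by
    rw [h3]; unfold va
    rw [← hl]
    exact (dvd_gl _ _ _).add dvd_rfl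
  have hvl : v = gl c l (un c s) + CC c ^ l := by rw [h3]; rfl
  have hpl := pow_pos' c l
  -- the last unit below `v`
  have hv1 : gl c l (v - 1) = gl c l (un c s) :=
    gl_eq (dvd_gl _ _ _) (by omega) (by omega)
  have hs0 : un c s ≠ 0 := by rintro h0; rw [h0] at h15; simp [lg] at h15
  have hlgv : lg c (v - 1) = lg c (un c s) := (lg_cell' hc hs0 hlt hv1.symm).symm
  set b1 := un c (v - 1) with hb1
  have hu1 : un c b1 = b1 := un_un hc _
  have hb1v : b1 ≤ v - 1 := un_le c _
  have hlgb : lg c b1 = lg c (un c s) := by rw [hb1, lg_un hc, hlgv]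
  have hjb : j0 c b1 = j0 c (un c s) := by unfold j0 ep; rw [hlgb]
  have hWs : Wd c (un c s) ∣ un c s := un_eq_iff.mp hu
  have hsb : un c s ≤ b1 := by
    apply le_un (c := c)
    · have : Wd c (v - 1) = Wd c (un c s) := by unfold Wd ep; rw [hlgv]
      rw [this]
      exact hWs
    · omega
  obtain ⟨h4, h5, h6⟩ := not_isP_above hc (by omega) hu hu1 (by omega) h2 hsb
    (by rw [← h3]; omega)
  rw [← hl] at h5 h6
  -- the unit above `v`
  have huv : un c v = v := by
    rw [un_eq_iff]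
    rcases Nat.lt_or_ge v (CC c ^ (lg c (v - 1) + 1)) with h7 | h7
    · have h8 : lg c v = lg c (v - 1) :=
        lg_eq hc ((lg_le c (by omega)).trans (by omega)) h7
      refine Dvd.dvd.trans (Wd_dvd_pow ?_) hvd
      unfold ep at hepl ⊢
      rw [h8, hlgv]
      exact hepl
    · have h8 : v - 1 < CC c ^ (lg c (v - 1) + 1) := lt_lg hc _
      have h9 : v = CC c ^ (lg c (v - 1) + 1) := by omega
      generalize lg c (v - 1) + 1 = L at h9
      have h10 : lg c v = L := by
        apply lg_eq hc h9.ge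
        rw [h9]
        exact Nat.pow_lt_pow_right (one_lt_CC hc) (by omega)
      have h12 : Wd c v ∣ CC c ^ L := by
        apply Wd_dvd_pow
        unfold ep
        rw [h10]
        omega
      rw [← h9] at h12
      exact h12
  intro heq
  rcases kid_cases c K' v with ⟨t2, ht2, hp2, hk2⟩ | ⟨hn2, hn2', hk2⟩
  · -- `P` region
    rw [← heq] at hk2
    obtain ⟨t1, ht1, hp1, hk1⟩ := kid_P_spec hk2
    obtain ⟨ht25, ht2K, -, -⟩ := epo_of_tm hc ht ht2
    rw [huv] at hp2 hk1
    obtain ⟨h8, h9, h10, h11, -⟩ := isP_level hc ht25 huv hp2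
    set l2 := lev c t2 v with hl2
    have h12 : gl c l2 v < v := by
      have h13 : ga c t1 (un c (v - 1)) ≤ un c (v - 1) := gl_le _ _ _
      rw [← hk1, ← hb1] at h13
      have h13' : gl c l2 v ≤ b1 := h13
      omega
    have h13 : l < l2 := by
      by_contra hn
      rw [gl_eq (g := v) ((pow_dvd' c (by omega)).trans hvd) le_rfl
        (by have := pow_pos' c l2; omega)] at h12
      omega
    rcases Nat.lt_or_ge (lg c v) l2 with h14 | h14
    · -- `v` is finished
      have h16 : l2 = lg c v + 1 := by omega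
      have hf : fin c t2 v := by
        unfold fin
        rw [← h16]
        exact h11
      have hf1 : fin c t2 b1 := fin_below hc (by omega) hf
      exact h4 (Or.inl (fin_mono (by omega) hf1))
    · have hv0 : v ≠ 0 := by omega
      have h16 : gl c l2 (v - 1) = gl c l2 v :=
        gl_eq (dvd_gl _ _ _) (by omega) (by have := lt_gl c l2 v; omega)
      have h17 : gl c l2 b1 = gl c l2 v := by
        rw [← h16, hb1]
        apply gl_un hc
        rw [← ep_un hc (v - 1), ← hb1]
        unfold ep at hepl ⊢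
        rw [hlgb]
        omega
      have h18 : lg c v = lg c b1 := lg_cell' hc hv0 h14 h17.symm
      have h22 : j0 c v = j0 c b1 := by unfold j0 ep; rw [h18]
      have h23 := h9 (by omega)
      have h19 : exU c t2 l2 b1 :=
        exU_of_le hc huv hu1 (by omega) h23 h8 h17.symm (by omega) (by omega) h18.symm h11
      have h20 : exU c K l2 b1 := exU_mono (by omega) h19
      have h21 := (exU_iff hc (by omega) hu1 (by omega) (by omega) (by omega)).mp h20
      omega
  · -- `R` region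
    have hk1 := hk2
    rw [← heq] at hk1
    obtain ⟨hn1, hn1', hv1'⟩ := kid_R_spec hk1
    rw [huv] at hv1'
    have h7 : v < va c K' v := by unfold va; exact lt_gl _ _ _
    have h8 : lev c K' b1 ≤ l := by
      rw [← h5]
      exact lev_mono hc (by omega) hu1 (by omega) hKK
    have h9 : va c K' b1 ≤ v := by
      unfold va
      obtain ⟨k, hk⟩ := dvd_gl c (lev c K' b1) b1
      obtain ⟨m, hm⟩ := (pow_dvd' c h8).trans hvd
      have h11 : gl c (lev c K' b1) b1 < v := lt_of_le_of_lt (gl_le _ _ _) (by omega)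
      rw [hk, hm] at h11
      rw [hk, hm]
      have h12 : k < m := lt_of_mul_lt_mul_left h11 (Nat.zero_le _)
      calc CC c ^ lev c K' b1 * k + CC c ^ lev c K' b1 = CC c ^ lev c K' b1 * (k + 1) := by ring
        _ ≤ _ := Nat.mul_le_mul_left _ h12
    have h10 : un c (v - 1) = b1 := rfl
    rw [h10] at hv1'
    omega

end Pool.Agent.Helper29.E2.K99
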