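import Mathlib
import Pool.Agent.Helper99.E2.Lam
import Pool.Agent.Helper99.E2.Far4

/-!
# E-T (MP_12a1af_nt), phase 2: far kinematics, part 1 (laminarity, positions of the zones)
-/

namespace Pool.Agent.Helper29.E2.K99

open Pool.Agent.Helper29.ETK
open Pool.Agent.E2 (Desc IsDesc Occ)

variable {c : ℕ}

/-- the unit in action -/
lemma ab_spec {t : ℕ} (h : 0 < ab c t) : un c (ab c t) = ab c t ∧ acts c t (ab c t) := by
  have := Nat.findGreatest_of_ne_zero (P := fun b => un c b = b ∧
    ¬ (isP c (tm c t) b ↔ isP c t b)) (n := t) (m := ab c t) rfl (by omega)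
  exact this

/-- a `PT` kind: the unit in action, the anchor, the kind of the transitional state -/
lemma PT_spec {t s g b : ℕ} (h : kid c t s = .PT g b) :
    b = ab c t ∧ 0 < b ∧ un c b = b ∧ acts c t b ∧ g = ag c t ∧ ak c t = 0 := by
  have h2 : kidP c t g = .PT g b := by
    rw [← kid_eq_P (c := c) (t := t) (s := s) (g := g) (Or.inr ⟨b, h⟩), h]
  unfold kidP at h2
  split_ifs at h2 with h3
  simp only [Kid.PT.injEq, true_and] at h2
  obtain ⟨h4, h5, h6⟩ := h3
  obtain ⟨h7, h8⟩ := ab_spec h4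
  rw [← h2]
  exact ⟨rfl, h4, h7, h8, h5.symm, h6⟩

end Pool.Agent.Helper29.E2.K99
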