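import Mathlib
import Pool.Agent.Helper99.E2.FarK2

/-!
# E-T (MP_12a1af_nt), phase 2: far kinematics, part 3 (sweeps: F2, F2L, F2R, F3)
-/

namespace Pool.Agent.Helper29.E2.K99

open Pool.Agent.Helper29.ETK
open Pool.Agent.E2 (Desc IsDesc Occ ddist)

variable {c : ℕ}

/-- the final count: `E'` is an event which is hardly before `K'`, `E' + sl x` is before `K` -/
lemma num9 {x E' K K' W : ℕ} (hx : CC c ∣ x) (hE : E' + sl c x ≤ K)
    (hl : 60 * CC c * (K' - E') ≤ W) (hW : W ≤ x) :
    (10 * CC c + 9) * x ≤ 10 * CC c * (K - K') := by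
  obtain ⟨δ, hδ⟩ : ∃ δ, δ = K' - E' := ⟨_, rfl⟩
  have h1 : K' ≤ E' + δ := by omega
  have h2 := CC_mul_sl hx
  rw [← hδ] at hl
  have h3 : sl c x ≤ K - K' + δ := by omega
  have h4 : 10 * CC c * sl c x ≤ 10 * CC c * (K - K') + 10 * CC c * δ := by
    rw [← mul_add]
    exact Nat.mul_le_mul_left _ h3
  have h5 : 10 * CC c * sl c x = 10 * ((CC c + 1) * x) := by
    rw [← h2]; ring
  have h6 : 10 * ((CC c + 1) * x) = (10 * CC c + 9) * x + x := by ring
  have h7 : 10 * CC c * δ ≤ x := by
    have : 60 * CC c * δ = 6 * (10 * CC c * δ) := by ring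
    omega
  omega

/-- the cell of a zone of `R` type -/
lemma RZ.gl_eq {t w l s : ℕ} {d : Desc} (H : RZ c t d w l) (h1 : w ≤ s) (h2 : s < d.hi c) :
    gl c l s = gl c l w := by
  have h3 := H.hv
  exact Helper29.ETK.gl_eq (dvd_gl _ _ _) ((gl_le _ _ _).trans h1) (by omega)

lemma RZ.ep_le {t w l : ℕ} {d : Desc} (H : RZ c t d w l) : ep c w ≤ l := by
  exact H.jl

lemma RZ.lg_eq (hc : 10 ≤ c) {t w l s : ℕ} {d : Desc} (H : RZ c t d w l) (h1 : w ≤ s)
    (h2 : s < d.hi c) : lg c s = lg c w := by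
  have hw0 : w ≠ 0 := by
    rintro rfl
    have := H.lg15
    simp [lg] at this
  exact (lg_cell' hc hw0 H.hll (H.gl_eq h1 h2).symm).symm

lemma RZ.ep_eq (hc : 10 ≤ c) {t w l s : ℕ} {d : Desc} (H : RZ c t d w l) (h1 : w ≤ s)
    (h2 : s < d.hi c) : ep c s = ep c w := by
  unfold ep; rw [H.lg_eq hc h1 h2]

lemma RZ.Wd_eq (hc : 10 ≤ c) {t w l s : ℕ} {d : Desc} (H : RZ c t d w l) (h1 : w ≤ s)
    (h2 : s < d.hi c) : Wd c s = Wd c w := by
  unfold Wd; rw [H.ep_eq hc h1 h2]

lemma RZ.un_ge (hc : 10 ≤ c) {t w l s : ℕ} {d : Desc} (H : RZ c t d w l) (h1 : w ≤ s) :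
    w ≤ un c s := by
  have := un_mono (c := c) hc h1
  rw [H.uw] at this
  exact this

/-- multiples of the unit width -/
lemma CC_dvd_sub {u w : ℕ} (hu : un c u = u) (hw : un c w = w)
    (h : Wd c u = Wd c w) (h3 : 3 ≤ lg c w) : CC c ∣ u - w :=
  (CC_dvd_Wd h3).trans (Nat.dvd_sub (by rw [← h]; exact un_eq_iff.mp hu) (un_eq_iff.mp hw))

/-- the front comes down: a unit of the `R` zone of `K` which is not in the zone at `K'` -/
theorem down_core (hc : 10 ≤ c) {K K' : ℕ} (ht : 9 ≤ epo c K') (hKK : K' ≤ K) {d : Desc}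
    {w l : ℕ} (H : RZ c K d w l) {s : ℕ} (h1 : d.Ip c ≤ s) (h2 : s < d.hi c)
    (hn : ¬ IsRk (d.hi c) (kid c K' s)) :
    (10 * CC c + 9) * (un c s + Wd c s - d.Ip c) ≤ 10 * CC c * (K - K') := by
  have htK : 9 ≤ epo c K := ht.trans (epo_mono hKK)
  have hE := epo_tm hc ht
  have hws : w ≤ s := by have := H.hw; omega
  have hu := un_un (c := c) hc s
  have hlg := H.lg_eq hc hws h2
  have hW := H.Wd_eq hc hws h2
  have hep := H.ep_eq hc hws h2
  have hel := H.ep_le
  have h15 := H.lg15
  have hlu : lg c (un c s) = lg c w := by rw [lg_un hc, hlg]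
  have hll := H.hll
  have hjj : j0 c (un c s) = j0 c w := by unfold j0 ep; rw [hlu]
  have huw := H.un_ge hc hws
  have hglu : gl c l (un c s) = gl c l w := by
    rw [gl_un hc (by rw [hep]; exact hel), H.gl_eq hws h2]
  have hl1 := H.lvl' s h1 h2
  -- levels at `K'`
  have hm1 : lev c K' (un c s) ≤ l := by
    rw [← hl1]; exact lev_mono hc (by omega) hu (by omega) hKK
  have hm2 : lev c (tm c K') (un c s) ≤ l := by
    rw [← hl1]; exact lev_mono hc (by omega) hu (by omega) ((tm_le c K').trans hKK)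
  -- if the unit is in the `R` state of level `l` at both times then it is in the zone
  have hcon : lev c K' (un c s) = l → ¬ isP c K' (un c s) → ¬ isP c (tm c K') (un c s) → False := by
    intro h3 h4 h5
    apply hn
    have h6 : ¬ isM c K' (un c s) := by unfold isM; tauto
    rw [kid_of_not_isM h6]
    have h7 : va c K' (un c s) = d.hi c := by
      unfold va
      rw [h3, hglu, H.hv]
    rw [h7]
    exact kidR_isRk _ _ _
  have hjl : j0 c w < l ∧ Dt c l w ≤ K := by
    rcases H.nb with h3 | h3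
    · exfalso
      -- newborn
      have hj1 : ep c (un c s) = l := by
        have h4 : gl c (ep c w) w = gl c (ep c w) (un c s) := by rw [← h3]; exact hglu.symm
        rw [(jn_cell hc (by omega) h4).1, h3]
      have hjle := jn_le_j0 c (un c s)
      have h5 := jn_le_lev (c := c) K' (un c s) (by omega)
      have h6 := jn_le_lev (c := c) (tm c K') (un c s) (by omega)
      exact hcon (by omega) (not_isP_of_lev (by omega) (by omega))
        (not_isP_of_lev (by omega) (by omega))
    · exact h3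
  have hnD : ¬ exD c (tm c K') l (un c s) := by
    intro hD
    have h3 := (exD_iff hc (by omega) hu (by omega) (by omega) (by omega)).mp hD
    have h4 := (exD_iff hc (by omega) hu (by omega) (l := l) (by omega) (by omega)).mp
      (exD_mono (tm_le c K') hD)
    rcases h3 with h3 | h3
    · omega
    · rcases h4 with h4 | h4
      · omega
      · exact hcon h4.1.symm h4.2 h3.2
  have hlate := late' hc ht (Dt_le hc (l := l) (b := un c s) (by omega) (by omega) (by omega))
    (gl_le c l (un c s)) (le_Dt c l (un c s)) hnD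
  rw [Wd_un hc, hW] at hlate
  have hdiff := Dt_diff (c := c) (l := l) (b := w) (b' := un c s) (by omega) hu
    (by rw [ep_un hc, hep]; exact hel) hglu.symm huw
  have hx : CC c ∣ un c s - w :=
    CC_dvd_sub hu H.uw (by rw [Wd_un hc, hW]) (by omega)
  have hIp := H.hw
  have hWx : Wd c w ≤ un c s - w := by
    have h3 : w < un c s := by
      have h4 : ¬ un c s = w := by
        intro h4
        have := lt_un c s
        rw [h4, hW] at this
        omega
      omega
    have := unit_add_le hc H.uw hu h3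
    omega
  have h10 := num9 (c := c) (K := K) (K' := K') hx (by rw [← hdiff]; exact hjl.2) hlate hWx
  have e : un c s + Wd c s - d.Ip c = un c s - w := by rw [hW]; omega
  rw [e]
  exact h10

/-- the front goes up and comes down: a unit of lower level at `K'` -/
theorem up_core (hc : 10 ≤ c) {K K' : ℕ} (ht : 9 ≤ epo c K') (hKK : K' ≤ K) {d : Desc}
    {w l : ℕ} (H : RZ c K d w l) {s : ℕ} (h1 : w ≤ s) (h2 : s < d.hi c)
    (hlev : lev c (tm c K') (un c s) < l) (hjl : l ≠ ep c w) :
    (10 * CC c + 9) * (un c s + Wd c s - w) ≤ 10 * CC c * (K - K') := by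
  have htK : 9 ≤ epo c K := ht.trans (epo_mono hKK)
  have hE := epo_tm hc ht
  have hu := un_un (c := c) hc s
  have hlg := H.lg_eq hc h1 h2
  have hW := H.Wd_eq hc h1 h2
  have hep := H.ep_eq hc h1 h2
  have hel := H.ep_le
  have h15 := H.lg15
  have hll := H.hll
  have hlu : lg c (un c s) = lg c w := by rw [lg_un hc, hlg]
  have hjj : j0 c (un c s) = j0 c w := by unfold j0 ep; rw [hlu]
  have huw := H.un_ge hc h1
  have hglu : gl c l (un c s) = gl c l w := by
    rw [gl_un hc (by rw [hep]; exact hel), H.gl_eq h1 h2]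
  obtain ⟨hjl, hD⟩ : j0 c w < l ∧ Dt c l w ≤ K := by
    rcases H.nb with h3 | h3
    · exact absurd h3 hjl
    · exact h3
  have hnU : ¬ exU c (tm c K') l (un c s) := by
    intro hU
    have := (exU_iff hc (by omega) hu (by omega) (by omega) (by omega)).mp hU
    omega
  have hlate := late' hc ht (Ut_le hc (l := l) (b := un c s) (by omega) (by omega))
    (gl_le c l (un c s)) (le_Ut c l (un c s)) hnU
  rw [Wd_un hc, hW] at hlate
  -- the times
  have hv := H.hv
  have hus := un_le c s
  have hvu : un c s + Wd c s ≤ d.hi c := by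
    have h3 := un_add_le (c := c) (l := l) (b := un c s) hu (by rw [ep_un hc, hep]; exact hel)
    rw [Wd_un hc, hglu] at h3
    omega
  have hdw : CC c ∣ 2 * CC c ^ l + gl c l w - w :=
    dvd_of_unit' (c := c) (l := l) (b := w) (by omega) H.uw hel
  have hdu : CC c ∣ un c s + Wd c s - gl c l w := by
    have := dvd_of_unit (c := c) (l := l) (b := un c s) (by omega) hu
      (by rw [ep_un hc, hep]; exact hel)
    rw [Wd_un hc, hglu] at this
    exact this
  have hx : CC c ∣ un c s + Wd c s - w := by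
    have h3 : CC c ∣ un c s - w := CC_dvd_sub hu H.uw (by rw [Wd_un hc, hW]) (by omega)
    have h4 : un c s + Wd c s - w = (un c s - w) + Wd c s := by omega
    rw [h4, hW]
    exact h3.add (CC_dvd_Wd (by omega))
  have hgw := gl_le c l w
  have htime : Ut c l (un c s) + sl c (un c s + Wd c s - w) ≤ Dt c l w := by
    unfold Ut Dt
    rw [hglu, Wd_un hc]
    have h3 : sl c (un c s + Wd c s - gl c l w) + sl c (un c s + Wd c s - w) =
        sl c ((un c s + Wd c s - gl c l w) + (un c s + Wd c s - w)) :=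
      (sl_add hdu _).symm
    have h4 : sl c ((un c s + Wd c s - gl c l w) + (un c s + Wd c s - w)) ≤
        sl c (2 * CC c ^ l + gl c l w - w) := sl_mono (by omega)
    omega
  have hWx : Wd c w ≤ un c s + Wd c s - w := by rw [hW]; omega
  exact num9 (c := c) (K := K) (K' := K') hx (htime.trans hD) hlate hWx

lemma unit_end {x : ℕ} (hx : 0 < x) (h : Wd c (x - 1) ∣ x) :
    un c (x - 1) + Wd c (x - 1) = x := by
  have h7 := un_le c (x - 1)
  have h8 := lt_un c (x - 1)
  have h9 : x ≤ un c (x - 1) + Wd c (x - 1) := by omega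
  apply le_antisymm _ h9
  generalize hW : Wd c (x - 1) = W at *
  obtain ⟨a, ha⟩ := h
  have hd := Wd_dvd_un c (x - 1)
  rw [hW] at hd
  obtain ⟨b, hb⟩ := hd
  rw [hb] at h7 ⊢
  have h10 : W * b < W * a := by omega
  have h11 : b < a := lt_of_mul_lt_mul_left h10 (Nat.zero_le _)
  calc W * b + W = W * (b + 1) := by ring
    _ ≤ W * a := Nat.mul_le_mul_left _ h11
    _ = x := ha.symm

/-- a zone of `P` type -/
structure PZ (c t : ℕ) (d : Desc) : Prop where
  lt : d.lo < d.hi c
  up : ∀ s, d.lo ≤ s → s < d.hi c → IsPk d.lo (kid c t s)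
  uhi : un c (d.hi c - 1) + Wd c (d.hi c - 1) = d.hi c
  wbv : d.hi c ≤ wb c t

theorem PZ_of (hc : 10 ≤ c) {t : ℕ} (ht : 9 ≤ epo c t) {d : Desc} (h : Occ c t d)
    (hP : d.IsP) : PZ c t d := by
  obtain ⟨r0, r1, h⟩ := h
  cases d with
  | P g e =>
    obtain ⟨-, -, h1, h2, h3, h4⟩ := h
    refine ⟨h1, fun s a b => Or.inl (h3 s a b), ?_, h2⟩
    simp only [Desc.hi]
    rcases h4 with h4 | h4
    · -- the end of the last run
      rw [h4]
      exact (wb_prev hc ht).1
    · have h5 : kid c t (e - 1) ≠ kid c t e := by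
        rw [h3 (e-1) (by omega) (by omega)]
        exact fun h => h4 h.symm
      exact (un_of_ne hc (by omega) h5).2
  | PT g b =>
    obtain ⟨-, -, h1, h2, h3, h4, h5⟩ := h
    have hW := Wd_pos c b
    obtain ⟨hb1, hb2, hb3, hb4, -, -⟩ := PT_spec (h4 b h1 (by omega))
    refine ⟨by simp only [Desc.lo, Desc.hi]; omega, fun s a e => Or.inr ⟨b, h4 s a e⟩, ?_,
      by simp only [Desc.hi]; omega⟩
    simp only [Desc.hi]
    have hs : un c (b + Wd c b - 1) = b := eq_of_mem_unit hc hb3 (by omega) (by omega)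
    have h6 : Wd c (b + Wd c b - 1) = Wd c b := by rw [← Wd_un hc, hs]
    rw [hs, h6]
  | R b v => exact absurd hP (by simp [Desc.IsP])
  | RT b v => exact absurd hP (by simp [Desc.IsP])
  | RTh b v => exact absurd hP (by simp [Desc.IsP])
  | RS g b v => exact absurd hP (by simp [Desc.IsP])

/-- the top of an `R` zone -/
lemma RZ.uhi (hc : 10 ≤ c) {t w l : ℕ} {d : Desc} (H : RZ c t d w l) :
    un c (d.hi c - 1) + Wd c (d.hi c - 1) = d.hi c := by
  have hW0 := Wd_pos c w
  have h1 := H.hw
  have h2 := H.ipv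
  have h3 := H.Wd_eq hc (s := d.hi c - 1) (by omega) (by omega)
  have h4 : Wd c w ∣ d.hi c := by
    rw [H.hv]
    exact (Wd_dvd_gl H.ep_le).add (Wd_dvd_pow H.ep_le)
  rw [← h3] at h4
  exact unit_end (by omega) h4

end Pool.Agent.Helper29.E2.K99
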