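import Mathlib
import Pool.Agent.Helper99.E2.FarK4

/-!
# E-T (MP_12a1af_nt), phase 2: far kinematics, part 5 (laminarity, lengths)
-/

namespace Pool.Agent.Helper29.E2.K99

open Pool.Agent.Helper29.ETK
open Pool.Agent.E2 (Desc IsDesc Occ ddist)

variable {c : ℕ}

/-- the start of a unit above a unit end -/
lemma un_of_dvd_pow (hc : 10 ≤ c) {v l : ℕ} (hv0 : 0 < v) (hl : ep c (v - 1) ≤ l)
    (hvd : CC c ^ l ∣ v) : un c v = v := by
  rw [un_eq_iff]
  rcases Nat.lt_or_ge v (CC c ^ (lg c (v - 1) + 1)) with h7 | h7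
  · rcases Nat.eq_or_lt_of_le (show 1 ≤ v by omega) with h1 | h1
    · rw [← h1]
      have : Wd c 1 = 1 := by
        unfold Wd ep
        have : lg c 1 = 0 := by unfold lg; simp
        rw [this]; simp
      rw [this]
    · have h8 : lg c v = lg c (v - 1) :=
        lg_eq hc ((lg_le c (by omega)).trans (by omega)) h7
      refine Dvd.dvd.trans (Wd_dvd_pow ?_) hvd
      unfold ep at hl ⊢
      rw [h8]
      exact hl
  · have h8 : v - 1 < CC c ^ (lg c (v - 1) + 1) := lt_lg hc _
    have h9 : v = CC c ^ (lg c (v - 1) + 1) := by omega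
    generalize lg c (v - 1) + 1 = L at h9
    have h10 : lg c v = L := by
      apply lg_eq hc h9.ge
      rw [h9]
      exact Nat.pow_lt_pow_right (one_lt_CC hc) (by omega)
    have h12 : Wd c v ∣ CC c ^ L := by
      apply Wd_dvd_pow
      unfold ep
      rw [h10]
      omega
    rw [← h9] at h12
    exact h12

/-- facts on the unit below the top of an `R` zone -/
lemma RZ.top (hc : 10 ≤ c) {t w l : ℕ} {d : Desc} (H : RZ c t d w l) :
    16 ≤ lg c (d.hi c - 1) ∧ lev c (tm c t) (un c (d.hi c - 1)) = l ∧ CC c ^ l ∣ d.hi c ∧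
    un c (d.hi c) = d.hi c ∧ 0 < d.hi c ∧ l ≤ lg c (d.hi c - 1) ∧ ep c (d.hi c - 1) ≤ l := by
  have hW := Wd_pos c w
  have h1 := H.hw
  have h2 := H.ipv
  have h3 := H.lg_eq hc (s := d.hi c - 1) (by omega) (by omega)
  have h4 := H.ep_eq hc (s := d.hi c - 1) (by omega) (by omega)
  have h5 := H.lvl (d.hi c - 1) (by omega) (by omega)
  have h6 := H.ep_le
  have h7 : CC c ^ l ∣ d.hi c := by
    rw [H.hv]
    exact (dvd_gl _ _ _).add dvd_rfl
  have h8 := H.lg15
  have h9 := H.hll
  refine ⟨by omega, h5, h7, ?_, by omega, by omega, by omega⟩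
  exact un_of_dvd_pow hc (by omega) (by omega) h7

/-- the top of an `R` zone of `K` is an end of a run of `K'` -/
theorem lam_top (hc : 10 ≤ c) {K K' w l : ℕ} (ht : 9 ≤ epo c K') (hKK : K' ≤ K) {d : Desc}
    (H : RZ c K d w l) : kid c K' (d.hi c - 1) ≠ kid c K' (d.hi c) := by
  obtain ⟨h15, hlev, hvd, huv, hv0, hll, hepl⟩ := H.top hc
  set v := d.hi c with hv
  set b1 := un c (v - 1) with hb1
  have hE := epo_tm hc ht
  have hu1 : un c b1 = b1 := un_un hc _
  have hb1v : b1 ≤ v - 1 := un_le c _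
  have hlgb : lg c b1 = lg c (v - 1) := lg_un hc _
  have htm := tm_mono hc ht hKK
  have hm1 : lev c (tm c K') b1 ≤ l := by
    rw [← hlev]
    exact lev_mono hc (by omega) hu1 (by omega) htm
  have hgb : ∀ k, l ≤ k → gl c k b1 = gl c k (v - 1) := by
    intro k hk
    exact gl_un hc (by omega)
  intro heq
  rcases kid_cases c K' v with ⟨t2, ht2, hp2, hk2⟩ | ⟨hn2, hn2', hk2⟩
  · -- `P` region
    rw [← heq] at hk2
    obtain ⟨t1, ht1, hp1, hk1⟩ := kid_P_spec hk2
    obtain ⟨ht25, ht2K, -, -⟩ := epo_of_tm hc ht ht2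
    rw [huv] at hp2 hk1
    rw [← hb1] at hp1 hk1
    obtain ⟨h8, h9, h10, h11, -⟩ := isP_level hc ht25 huv hp2
    set l2 := lev c t2 v with hl2
    have h12 : gl c l2 v < v := by
      have h13 : ga c t1 b1 ≤ b1 := gl_le _ _ _
      rw [← hk1] at h13
      have h13' : gl c l2 v ≤ b1 := h13
      omega
    have h13 : l < l2 := by
      by_contra hn
      rw [Helper29.ETK.gl_eq (g := v) ((pow_dvd' c (by omega)).trans hvd) le_rfl
        (by have := pow_pos' c l2; omega)] at h12
      omega
    -- an up event of `b1` of level `> l` done at `t2`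
    have hex : ∃ l3, l < l3 ∧ j0 c b1 < l3 ∧ l3 ≤ lg c b1 + 1 ∧ exU c t2 l3 b1 := by
      rcases Nat.lt_or_ge (lg c v) l2 with h14 | h14
      · have h16 : l2 = lg c v + 1 := by omega
        have hf : fin c t2 v := by
          unfold fin
          rw [← h16]
          exact h11
        have hf1 : fin c t2 b1 := fin_below hc (by omega) hf
        exact ⟨lg c b1 + 1, by omega, by
          have := j0_le_lg (c := c) (b := b1) (by omega); omega, le_rfl, hf1⟩
      · have hv0' : v ≠ 0 := by omega
        have h16 : gl c l2 (v - 1) = gl c l2 v :=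
          Helper29.ETK.gl_eq (dvd_gl _ _ _) (by omega) (by have := lt_gl c l2 v; omega)
        have h17 : gl c l2 b1 = gl c l2 v := by
          rw [← h16, hgb l2 h13.le]
        have h18 : lg c v = lg c b1 := lg_cell' hc hv0' h14 h17.symm
        have h22 : j0 c v = j0 c b1 := by unfold j0 ep; rw [h18]
        have h23 := h9 (by omega)
        have h19 : exU c t2 l2 b1 :=
          exU_of_le hc huv hu1 (by omega) h23 h8 h17.symm (by omega) (by omega) h18.symm h11
        exact ⟨l2, h13, by omega, by omega, h19⟩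
    obtain ⟨l3, k1, k2, k3, k4⟩ := hex
    have k5 : ¬ exU c (tm c K') l3 b1 := by
      intro hU
      have := (exU_iff hc (by omega) hu1 (by omega) k2 k3).mp hU
      omega
    -- so `t2 = K'` and `b1`, `v` both change in this slot
    have k6 : t2 = K' := by
      rcases ht2 with h | h
      · exfalso
        rw [h] at k4
        exact k5 k4
      · exact h
    rw [k6] at k4 hp2 h11
    have k7 : newE c K' false l3 b1 := ⟨by rw [exE_iff]; simpa using k5, by
      rw [exE_iff]; simpa using k4⟩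
    have k8 : vld c false l3 b1 := ⟨hu1, by omega, k2, k3, by simp⟩
    -- the unit `v`
    have k9 : ¬ isP c (tm c K') v := by
      intro hp
      -- then the level at `tm K'` is already `> l`, and `b1` had an event before
      obtain ⟨q1, q2, q3, q4, -⟩ := isP_level hc (by omega) huv hp
      have q5 : kid c K' v = kidP c K' (ga c (tm c K') v) := by
        unfold kid
        rw [huv, if_pos hp]
      have q6 : IsPk (ga c (tm c K') v) (kid c K' (v - 1)) := by
        rw [heq, q5]; exact kidP_isPk _ _ _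
      obtain ⟨t4, ht4, hp4, hk4⟩ := kid_P_spec q6
      rw [← hb1] at hp4 hk4
      set l4 := lev c (tm c K') v with hl4
      have r1 : gl c l4 v < v := by
        have h13 : ga c t4 b1 ≤ b1 := gl_le _ _ _
        rw [← hk4] at h13
        have h13' : gl c l4 v ≤ b1 := h13
        omega
      have r2 : l < l4 := by
        by_contra hn
        rw [Helper29.ETK.gl_eq (g := v) ((pow_dvd' c (by omega)).trans hvd) le_rfl
          (by have := pow_pos' c l4; omega)] at r1
        omega
      rcases Nat.lt_or_ge (lg c v) l4 with h14 | h14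
      · have hf : fin c (tm c K') v := by
          unfold fin
          have : lg c v + 1 = l4 := by omega
          rw [this]
          exact q4
        have hf1 : fin c (tm c K') b1 := fin_below hc (by omega) hf
        have := lev_of_fin hf1
        omega
      · have hv0' : v ≠ 0 := by omega
        have h16 : gl c l4 (v - 1) = gl c l4 v :=
          Helper29.ETK.gl_eq (dvd_gl _ _ _) (by omega) (by have := lt_gl c l4 v; omega)
        have h17 : gl c l4 b1 = gl c l4 v := by
          rw [← h16, hgb l4 r2.le]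
        have h18 : lg c v = lg c b1 := lg_cell' hc hv0' h14 h17.symm
        have h22 : j0 c v = j0 c b1 := by unfold j0 ep; rw [h18]
        have h23 := q2 (by omega)
        have h19 : exU c (tm c K') l4 b1 :=
          exU_of_le hc huv hu1 (by omega) h23 q1 h17.symm (by omega) (by omega) h18.symm q4
        have := (exU_iff hc (by omega) hu1 (by omega) (by omega) (by omega)).mp h19
        omega
    have k10 : acts c K' v := by
      unfold acts
      intro h
      exact k9 (h.mpr hp2)
    obtain ⟨-, -, d5, l5, hv5, hn5⟩ := exists_new hc ht huv k10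
    have := (newE_unique hc ht k8 hv5 k7 hn5).2.2
    omega
  · -- `R` region
    have hk1 := hk2
    rw [← heq] at hk1
    obtain ⟨hn1, hn1', hv1'⟩ := kid_R_spec hk1
    rw [huv] at hv1'
    rw [← hb1] at hv1' hn1 hn1'
    have h7 : v < va c K' v := by unfold va; exact lt_gl _ _ _
    have h8 : lev c K' b1 ≤ l := by
      have := (same_of_not_acts hc ht hu1 (by unfold acts; tauto)).1
      omega
    have h9 : va c K' b1 ≤ v := by
      unfold va
      obtain ⟨k, hk⟩ := dvd_gl c (lev c K' b1) b1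
      obtain ⟨m, hm⟩ := (pow_dvd' c h8).trans hvd
      have h11 : gl c (lev c K' b1) b1 < v := lt_of_le_of_lt (gl_le _ _ _) (by omega)
      generalize CC c ^ lev c K' b1 = A at hk hm ⊢
      rw [hk] at h11 ⊢
      rw [hm] at h11 ⊢
      have h12 : k < m := lt_of_mul_lt_mul_left h11 (Nat.zero_le _)
      calc A * k + A = A * (k + 1) := by ring
        _ ≤ _ := Nat.mul_le_mul_left _ h12
    omega

/-- no multiple of `C ^ k` strictly inside a cell of level `k` -/
lemma no_mult {k b x : ℕ} (hx : CC c ^ k ∣ x) (h1 : gl c k b < x) (h2 : x < gl c k b + CC c ^ k) :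
    False := by
  obtain ⟨m, hm⟩ := dvd_gl c k b
  obtain ⟨n, hn⟩ := hx
  rw [hm, hn] at h1 h2
  have h3 : m < n := lt_of_mul_lt_mul_left h1 (Nat.zero_le _)
  have h4 : CC c ^ k * n < CC c ^ k * (m + 1) := by rw [mul_add, mul_one]; exact h2
  have h5 : n < m + 1 := lt_of_mul_lt_mul_left h4 (Nat.zero_le _)
  omega

/-- an end of a run, not inside a cell in the state `B`, is not inside a zone -/
lemma zone_cut {t x : ℕ} {d : Desc} (h : Occ c t d)
    (hx : kid c t (x - 1) ≠ kid c t x) (h1 : d.lo < x) (h2 : x < d.hi c) :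
    ∃ g b v, d = .RS g b v ∧ x = b + Wd c b ∧ acts c t b ∧ un c b = b ∧ v = vM c t b := by
  obtain ⟨r0, r1, h⟩ := h
  cases d with
  | P g e =>
    obtain ⟨-, -, k1, k2, k3, k4⟩ := h
    simp only [Desc.lo, Desc.hi] at h1 h2
    exact absurd (by rw [k3 (x-1) (by omega) (by omega), k3 x (by omega) h2]) hx
  | PT g b =>
    obtain ⟨-, -, k1, k2, k3, k4, k5⟩ := h
    simp only [Desc.lo, Desc.hi] at h1 h2
    exact absurd (by rw [k4 (x-1) (by omega) (by omega), k4 x (by omega) h2]) hx
  | R b v =>
    obtain ⟨-, -, k1, k2, k3, k4⟩ := h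
    simp only [Desc.lo, Desc.hi] at h1 h2
    exact absurd (by rw [k3 (x-1) (by omega) (by omega), k3 x (by omega) h2]) hx
  | RT b v =>
    obtain ⟨-, -, k1, k2, k3, k4⟩ := h
    simp only [Desc.lo, Desc.hi] at h1 h2
    exact absurd (by rw [k3 (x-1) (by omega) (by omega), k3 x (by omega) h2]) hx
  | RTh b v =>
    obtain ⟨-, -, k1, k2, k3, k4⟩ := h
    simp only [Desc.lo, Desc.hi] at h1 h2
    exact absurd (by rw [k3 (x-1) (by omega) (by omega), k3 x (by omega) h2]) hx
  | RS g b v =>
    obtain ⟨-, -, k1, k2, k3, k4, k5, k6⟩ := h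
    simp only [Desc.lo, Desc.hi] at h1 h2
    have hW := Wd_pos c b
    obtain ⟨hb1, hb2, hb3, hb4, -, -⟩ := PT_spec (k5 b k2 (by omega))
    have hv : v = vM c t b := by rw [k1, av_eq, ← hb1]
    refine ⟨g, b, v, rfl, ?_, hb4, hb3, hv⟩
    rcases Nat.lt_trichotomy x (b + Wd c b) with h3 | h3 | h3
    · exact absurd (by rw [k5 (x-1) (by omega) (by omega), k5 x (by omega) h3]) hx
    · exact h3
    · exact absurd (by rw [k6 (x-1) (by omega) (by omega), k6 x (by omega) h2]) hx

/-- (lamR) -/
theorem far_lamR (hc : 10 ≤ c) {K K' : ℕ} (ht : 9 ≤ epo c K') (hKK : K' ≤ K) {d d' : Desc}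
    (h : Occ c K d) (h' : Occ c K' d') (hR : d.IsR) :
    d'.hi c ≤ d.hi c ∨ d.hi c ≤ d'.lo := by
  have htK : 9 ≤ epo c K := ht.trans (epo_mono hKK)
  have hE := epo_tm hc ht
  obtain ⟨w, l, H⟩ := exists_RZ hc htK h hR
  by_contra hn
  push Not at hn
  obtain ⟨h15, hlev, hvd, huv, hv0, hll, hepl⟩ := H.top hc
  obtain ⟨g, b, v', hd, hx, ha, hub, hv'⟩ :=
    zone_cut h' (lam_top hc ht hKK H) hn.2 hn.1
  subst hd
  have hn1 : d.hi c < v' := hn.1
  have hn2 : b < d.hi c := hn.2
  obtain ⟨q1, q2, q3, q4, -, -⟩ := acts_level hc ht hub ha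
  -- the unit below the top is `b`
  have hb : un c (d.hi c - 1) = b := eq_of_mem_unit hc hub (by omega) (by omega)
  rw [hb] at hlev
  have h1 : lev c (tm c K') b ≤ l := by
    rw [← hlev]
    exact lev_mono hc (by omega) hub (by omega) (tm_mono hc ht hKK)
  have h2 := gl_le c (lev c (tm c K') b) b
  exact no_mult (c := c) (k := lev c (tm c K') b) (b := b) ((pow_dvd' c h1).trans hvd) (by omega)
    (by rw [← q4, ← hv']; exact hn1)

/-- (lamP) -/
theorem far_lamP (hc : 10 ≤ c) {K K' : ℕ} (ht : 9 ≤ epo c K') (hKK : K' ≤ K) {d d' : Desc}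
    (h : Occ c K d) (h' : Occ c K' d') (hP : d.IsP) :
    d'.hi c ≤ d.lo ∨ d.lo ≤ d'.lo := by
  have htK : 9 ≤ epo c K := ht.trans (epo_mono hKK)
  have hE := epo_tm hc ht
  have H := PZ_of hc htK h hP
  by_contra hn
  push Not at hn
  have hg : 0 < d.lo := by omega
  have hk := H.up d.lo le_rfl H.lt
  obtain ⟨t0, l, h0, h1, h2, h3, h15, h4, h5, h6, h7, -, -, -⟩ := bottom_P hc htK hk hg
  obtain ⟨ht05, ht0K, -, -⟩ := epo_of_tm hc htK h0
  have htm0 : tm c K' ≤ t0 := by
    rcases h0 with rfl | rfl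
    · exact tm_mono hc ht hKK
    · exact (tm_le c K').trans hKK
  obtain ⟨g, b, v', hd, hx, ha, hub, hv'⟩ :=
    zone_cut h' (lam_P hc ht hKK hk hg) hn.2 hn.1
  subst hd
  have hn1 : d.lo < v' := hn.1
  have hn2 : b < d.lo := hn.2
  obtain ⟨q1, q2, q3, q4, -, q6⟩ := acts_level hc ht hub ha
  have hW := Wd_pos c b
  have h8 : lev c (tm c K') d.lo = lev c (tm c K') b := by
    have := (q6 d.lo (by omega) (by omega)).1
    rw [h4] at this
    exact this
  have h9 : lev c (tm c K') b ≤ l := by
    rw [← h8, ← h6]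
    exact lev_mono hc (by omega) h4 (by omega) htm0
  have h10 := gl_le c (lev c (tm c K') b) b
  exact no_mult (c := c) (k := lev c (tm c K') b) (b := b) ((pow_dvd' c h9).trans h1) (by omega)
    (by rw [← q4, ← hv']; exact hn1)

end Pool.Agent.Helper29.E2.K99
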