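import Mathlib
import Pool.Agent.Helper99.E2.FarK6
import Pool.Agent.E2S.FarKin

/-!
# E-T (MP_12a1af_nt), phase 2: the kinematic facts for far pairs, assembly
-/

namespace Pool.Agent.E2S

open Pool.Agent.Helper29.ETK (CC)
open Pool.Agent.Helper29.E2 (ep epo Wd wb epo_mono wb_le farF1 farF1P farF5R farF5P farF7 farF8)
open Pool.Agent.Helper29.E2.K99 (far_lamR far_lamP far_F2 far_F2L far_F2R far_F3 far_T1 far_T1P)

/-- **All kinematic facts for two times `K' ≤ K`.** -/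
theorem farKin {c : ℕ} (hc : 10 ≤ c) {K K' : ℕ} (ht : 9 ≤ epo c K') (hKK : K' ≤ K) :
    FarKin c K K' where
  wbK' := wb_le hc ht
  wbK := wb_le hc (ht.trans (epo_mono hKK))
  lamR _ _ h h' hR _ := far_lamR hc ht hKK h h' hR
  lamP _ _ h h' hP _ := far_lamP hc ht hKK h h' hP
  F1 := farF1 hc ht hKK
  F1P := farF1P hc ht hKK
  F2 _ _ h h' hR hP hle := far_F2 hc ht hKK h h' hR hP hle
  F2L d d' h h' hR hP hlo hle := by
    refine le_trans (Nat.mul_le_mul_right _ ?_) (far_F2L hc ht hKK h h' hR hP hlo hle)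
    omega
  F2R _ _ h h' hR hR' hlt := far_F2R hc ht hKK h h' hR hR' hlt
  F3 _ _ h h' hR hR' heq := far_F3 hc ht hKK h h' hR hR' heq
  F5R := farF5R hc (ht.trans (epo_mono hKK))
  F5P := farF5P hc (ht.trans (epo_mono hKK))
  F7 := farF7 hc ht hKK
  F8 := farF8 hc (ht.trans (epo_mono hKK))
  T1 _ _ h hR hs h1 h2 := far_T1 hc ht hKK h hR hs h1 h2
  T1P _ _ h hP hs h1 h2 _ := far_T1P hc ht hKK h hP hs h1 h2

end Pool.Agent.E2S
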