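import Mathlib
import Pool.Agent.Helper99.E2.Lam
import Pool.Agent.Helper99.ETK.Count

/-!
# E-T (MP_12a1af_nt), phase 2: the number of the kinds of the merged part
-/

open Finset

namespace Pool.Agent.Helper29.E2.K99

open Pool.Agent.Helper29.ETK
open Pool.Agent.Helper99.ETK (Conv runs_fst_nodup runs_fst_subset runs_length_le lastM mem_lastM
  card_lastM)
open Pool.Agent.ETS (runs runs_of_le runs_of_lt rend lt_rend rend_le rend_spec of_lt_rend
  isRun_of_mem' IsRun)

variable {c : ℕ}

lemma kid_conv {t : ℕ} (H : KidOK c t) : Conv (kid c t) (wb c t) := by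
  intro u x y h1 h2 h3 h4
  generalize hk : kid c t y = k at h4
  cases k with
  | P g =>
    obtain ⟨h5, h6⟩ := H.P y g h3 hk
    obtain ⟨h7, -⟩ := H.P u g (by omega) h4
    rw [h4]
    exact h6 x (by omega) h2
  | PT g b =>
    obtain ⟨-, h5, h6, -, -, h7, -⟩ := H.PT y g b h3 hk
    obtain ⟨-, h8, -⟩ := H.PT u g b (by omega) h4
    rw [h4]
    exact h7 x (by omega) (by omega)
  | R v =>
    obtain ⟨h5, -, -⟩ := H.R y v h3 hk
    obtain ⟨-, -, h6⟩ := H.R u v (by omega) h4
    rw [h4]
    exact h6 x h1 (by omega)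
  | RT v =>
    obtain ⟨h5, -, -⟩ := H.RT y v h3 hk
    obtain ⟨-, -, h6⟩ := H.RT u v (by omega) h4
    rw [h4]
    exact h6 x h1 (by omega)
  | RTh v =>
    obtain ⟨h5, -, -⟩ := H.RTh y v h3 hk
    obtain ⟨-, -, h6⟩ := H.RTh u v (by omega) h4
    rw [h4]
    exact h6 x h1 (by omega)

/-- a `P` region is recent -/
lemma P_recent (hc : 10 ≤ c) {t s g : ℕ} (ht : 9 ≤ epo c t) (h : IsPk g (kid c t s))
    (hg : 0 < g) (hs : s ≤ t) :
    ∃ l, l ≤ lg c t ∧ g ∈ lastM c 3 l t := by
  obtain ⟨t0, l, h0, h1, h2, h3, h15, h4, h5, h6, h7, h8, -, -⟩ := bottom_P hc ht h hg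
  obtain ⟨ht0, hle, hG, hE⟩ := epo_of_tm hc ht h0
  have hlate := late_of_not_exD hc ht0 (by omega) hG hE (by omega) h2 h3 h7
  have hl1 : 2 ≤ l := by unfold j0 at h2; omega
  have h9 : Dt c l g ≤ g + 2 * CC c ^ l + 7 * CC c ^ (l - 1) := by
    have := Dt_le_cell (c := c) hc (l := l) (b := g) (by omega)
    rw [gl_eq (g := g) h1 le_rfl (by have := pow_pos' c l; omega)] at this
    exact this
  have h10 : Wd c g ≤ CC c ^ (l - 1) := pow_le c (by unfold j0 at h2; omega)
  have h11 := pow_pred_le (c := c) hc (l := l) (by omega)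
  exact ⟨l, h3.trans (lg_mono (by omega)), mem_lastM h1 (by omega) (by omega)⟩

/-- an `R` region is recent (levels at which the next event has the next level) -/
lemma R_recent1 (hc : 10 ≤ c) {t b : ℕ} (ht : 9 ≤ epo c t) (hu : un c b = b)
    (h15 : 16 ≤ lg c b) (hlt : lev c t b ≤ lg c b) (hj : j0 c b ≤ lev c t b)
    (h4 : va c t b ≤ t) :
    ∃ l, l ≤ lg c t ∧ va c t b ∈ lastM c 7 l t := by
  have hj0 : ep c b + 8 ≤ lev c t b := hj
  set v := va c t b with h3
  set l := lev c t b with hl
  have hnU : ¬ exU c t (l + 1) b := by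
    intro hU
    have := (exU_iff hc (by omega) hu (by omega) (by omega) (by omega)).mp hU
    omega
  have hlate := late_of_not_exU hc (t0 := t) (K := t) (by omega) (by omega) (by omega) (by omega)
    (by omega) (by omega) hnU
  have hepl : ep c b ≤ l := by omega
  have hpl := pow_pos' c l
  have hvl : v = gl c l b + CC c ^ l := rfl
  have hbv : b + Wd c b ≤ v := by
    rw [hvl]
    exact un_add_le hu hepl
  have h5 : Ut c (l + 1) b ≤ v + 6 * CC c ^ l := by
    unfold Ut
    simp only [Nat.add_sub_cancel]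
    have h6 : b + Wd c b - gl c (l + 1) b ≤ CC c ^ (l + 1) := by
      have := un_add_le (c := c) (l := l + 1) (b := b) hu (by omega)
      omega
    have h7 : (b + Wd c b - gl c (l + 1) b) / CC c ≤ CC c ^ l := by
      calc (b + Wd c b - gl c (l + 1) b) / CC c ≤ CC c ^ (l + 1) / CC c := Nat.div_le_div_right h6
        _ = CC c ^ l := by
          rw [pow_succ, Nat.mul_div_cancel _ (CC_pos c)]
    have h8 := gl_le c (l + 1) b
    unfold sl
    omega
  have h10 : Wd c b ≤ CC c ^ l := pow_le c hepl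
  have hvd : CC c ^ l ∣ v := by
    rw [hvl]
    exact (dvd_gl _ _ _).add dvd_rfl
  have hst : b ≤ t := by omega
  exact ⟨l, hlt.trans (lg_mono hst), mem_lastM hvd (by omega) (by omega)⟩

/-- the tops of the newborn units -/
def newV (c t : ℕ) : Finset ℕ :=
  lastM c (7 * CC c ^ 8) (ep c t) t ∪ lastM c (7 * CC c ^ 8) (ep c t - 1) t

lemma card_newV (c t : ℕ) : (newV c t).card ≤ 14 * CC c ^ 8 := by
  unfold newV
  refine (card_union_le _ _).trans ?_
  have h1 := card_lastM (c := c) (7 * CC c ^ 8) (ep c t) t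
  have h2 := card_lastM (c := c) (7 * CC c ^ 8) (ep c t - 1) t
  omega

/-- the newborn units -/
lemma R_recent2 (hc : 10 ≤ c) {t b : ℕ} (ht : 9 ≤ epo c t) (hu : un c b = b)
    (h15 : 16 ≤ lg c b) (hj : lev c t b = ep c b) (hbt : va c t b ≤ t) :
    va c t b ∈ newV c t := by
  have hj0 : j0 c b = ep c b + 8 := rfl
  have hjl := j0_le_lg (c := c) (b := b) (by omega)
  have hva : va c t b = b + Wd c b := by
    unfold va
    rw [hj]
    change un c b + Wd c b = _
    rw [hu]
  rw [hva] at hbt ⊢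
  have hnU : ¬ exU c t (j0 c b + 1) b := by
    intro hU
    have := (exU_iff hc (by omega) hu (by omega) (by omega) (by omega)).mp hU
    omega
  have hlate := late_of_not_exU hc (t0 := t) (K := t) (by omega) (by omega) (by omega) (by omega)
    (by omega) (by omega) hnU
  have h9 : CC c ^ j0 c b = CC c ^ 8 * Wd c b := by
    rw [hj0, pow_add]
    unfold Wd
    ring
  have h10 : 1 ≤ CC c ^ 8 := pow_pos' c 8
  have h11 : Wd c b ≤ CC c ^ 8 * Wd c b := Nat.le_mul_of_pos_left _ h10
  have h5 : Ut c (j0 c b + 1) b ≤ b + Wd c b + 6 * (CC c ^ 8 * Wd c b) := by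
    unfold Ut
    simp only [Nat.add_sub_cancel]
    have h6 := un_add_le (c := c) (l := j0 c b + 1) (b := b) hu (by omega)
    have h7 : (b + Wd c b - gl c (j0 c b + 1) b) / CC c ≤ CC c ^ j0 c b := by
      calc (b + Wd c b - gl c (j0 c b + 1) b) / CC c ≤ CC c ^ (j0 c b + 1) / CC c :=
            Nat.div_le_div_right (by omega)
        _ = CC c ^ j0 c b := by
          rw [pow_succ, Nat.mul_div_cancel _ (CC_pos c)]
    have h8 := gl_le c (j0 c b + 1) b
    unfold sl
    omega
  -- the epochs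
  have hb0 : b ≠ 0 := by rintro rfl; simp [lg] at h15
  have h12 : CC c ^ 8 * Wd c b ≤ b := by
    have h13 : CC c ^ 8 * Wd c b = CC c ^ (ep c b + 8) := by unfold Wd; rw [pow_add]; ring
    rw [h13]
    exact (pow_le c (by unfold ep; omega)).trans (lg_le c hb0)
  have h13' := Wd_le hc (b := b) (by omega)
  have h13 : t ≤ 8 * b := by omega
  have h14 := (lg_mono (c := c) h13).trans (lg_eight hc b)
  have h16 := lg_mono (c := c) (show b ≤ t by omega)
  have h17 : ep c b = ep c t ∨ ep c b = ep c t - 1 := by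
    unfold ep
    omega
  have h18 : CC c ^ ep c b ∣ b + Wd c b := (un_eq_iff.mp hu).add dvd_rfl
  have h19 : t < b + Wd c b + 7 * CC c ^ 8 * CC c ^ ep c b := by
    have : 7 * CC c ^ 8 * CC c ^ ep c b = 7 * (CC c ^ 8 * Wd c b) := by unfold Wd; ring
    omega
  unfold newV
  rw [mem_union]
  rcases h17 with h17 | h17
  · left
    rw [← h17]
    exact mem_lastM h18 hbt h19
  · right
    rw [← h17]
    exact mem_lastM h18 hbt h19

/-- an `R` region is recent -/
lemma R_recent (hc : 10 ≤ c) {t s v : ℕ} (ht : 9 ≤ epo c t) (h : IsRk v (kid c t s))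
    (hs : s < wb c t) :
    (∃ l, l ≤ lg c t ∧ v ∈ lastM c 7 l t) ∨ v ∈ newV c t := by
  obtain ⟨h1, h2, h3⟩ := kid_R_spec h
  have hu := un_un (c := c) hc s
  have hnf : ¬ fin c t (un c s) := fun hf => h2 (Or.inl hf)
  obtain ⟨-, -, h15⟩ := big_of_not_fin hc (by omega) hnf
  have hlt := lev_le_of_not_isP (c := c) (by omega) h2
  obtain ⟨h5, h4, -⟩ := K4' hc ht hs h
  rcases lev_cases (c := c) t (un c s) (by omega) with h6 | h6
  · right
    rw [h3]
    exact R_recent2 hc ht hu h15 h6 (by rw [← h3]; omega)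
  · left
    rw [h3]
    exact R_recent1 hc ht hu h15 hlt h6.le (by rw [← h3]; omega)

/-- the number of values of `kid` -/
theorem card_kid (hc : 10 ≤ c) {t : ℕ} (ht : 9 ≤ epo c t) :
    ((range (wb c t)).image (kid c t)).card ≤ 10 * lg c t + 11 + 14 * CC c ^ 8 := by
  classical
  have hw := wb_le hc ht
  have hsub : (range (wb c t)).image (kid c t) ⊆
      (insert 0 ((range (lg c t + 1)).biUnion (fun l => lastM c 3 l t))).image (kidP c t) ∪
      ((range (lg c t + 1)).biUnion (fun l => lastM c 7 l t) ∪ newV c t).image (kidR c t) := by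
    intro k hk
    rw [mem_image] at hk
    obtain ⟨s, hs, rfl⟩ := hk
    rw [mem_range] at hs
    rw [mem_union, mem_image, mem_image]
    rcases kid_cases c t s with ⟨t0, -, -, h⟩ | ⟨-, -, h⟩
    · left
      refine ⟨_, ?_, (kid_eq_P h).symm⟩
      rcases Nat.eq_zero_or_pos (ga c t0 (un c s)) with h0 | h0
      · rw [h0]; exact mem_insert_self _ _
      · obtain ⟨l, hl, hm⟩ := P_recent hc ht h h0 (by omega)
        apply mem_insert_of_mem
        rw [mem_biUnion]
        exact ⟨l, mem_range.mpr (by omega), hm⟩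
    · right
      refine ⟨_, ?_, (kid_eq_R h).symm⟩
      rw [mem_union]
      rcases R_recent hc ht h hs with ⟨l, hl, hm⟩ | hm
      · left
        rw [mem_biUnion]
        exact ⟨l, mem_range.mpr (by omega), hm⟩
      · exact Or.inr hm
  have hb : ∀ n, ((range (lg c t + 1)).biUnion (fun l => lastM c n l t)).card ≤
      (lg c t + 1) * n := by
    intro n
    refine card_biUnion_le.trans ?_
    calc ∑ l ∈ range (lg c t + 1), (lastM c n l t).card ≤ ∑ l ∈ range (lg c t + 1), n :=
          sum_le_sum (fun l _ => card_lastM n l t)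
      _ = (lg c t + 1) * n := by rw [sum_const, card_range, smul_eq_mul]
  refine (card_le_card hsub).trans ((card_union_le _ _).trans ?_)
  have h1 := (card_image_le (s := insert 0 ((range (lg c t + 1)).biUnion
    (fun l => lastM c 3 l t))) (f := kidP c t)).trans ((card_insert_le _ _).trans
    (Nat.add_le_add_right (hb 3) 1))
  have hsm := card_newV c t
  have h2 := (card_image_le (s := (range (lg c t + 1)).biUnion (fun l => lastM c 7 l t) ∪
    newV c t) (f := kidR c t)).trans ((card_union_le _ _).trans (Nat.add_le_add (hb 7) hsm))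
  omega

/-- only one value of `kid` is a `PT` -/
lemma PT_unique {t s s' g g' b b' : ℕ} (h : kid c t s = .PT g b) (h' : kid c t s' = .PT g' b') :
    g = g' ∧ b = b' := by
  have h1 := kid_eq_P (c := c) (t := t) (s := s) (g := g) (Or.inr ⟨b, h⟩)
  have h2 := kid_eq_P (c := c) (t := t) (s := s') (g := g') (Or.inr ⟨b', h'⟩)
  rw [h] at h1
  rw [h'] at h2
  unfold kidP at h1 h2
  split_ifs at h1 h2 with h3 h4
  simp only [Kid.PT.injEq, true_and] at h1 h2
  exact ⟨h3.2.1.symm.trans h4.2.1, h1.trans h2.symm⟩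

end Pool.Agent.Helper29.E2.K99
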