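import Mathlib
import Pool.Agent.Helper99.E2.Count
import Pool.Agent.Helper16.E2.Reg2
import Pool.Agent.E2S.FinalDefs

/-!
# E-T (MP_12a1af_nt), phase 2: the number of regions of the layout of one time
-/

open Finset

namespace Pool.Agent.Helper29.E2.K99

open Pool.Agent.Helper29.ETK
open Pool.Agent.Helper99.ETK (Conv runs_fst_nodup runs_fst_subset runs_length_le)
open Pool.Agent.ETS (runs runs_of_le runs_of_lt rend lt_rend rend_le rend_spec of_lt_rend
  isRun_of_mem' IsRun)
open Pool.Agent.E2 (Reg2 toRegs toRegs2 body zoneReg layL)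

variable {c : ℕ}

/-- equal values of `kid2` are taken on intervals -/
lemma kid2_conv {t : ℕ} (H : KidOK c t) (T : TopOK c t) : Conv (kid2 c t) (zb c t) := by
  intro u x y h1 h2 h3 h4
  generalize hk : kid2 c t y = k at h4
  cases k with
  | old k =>
    have hy : y < wb c t := by
      by_contra hn
      rw [kid2_top (by omega)] at hk
      rcases kidU_cases c t y with h | h | h | h | h | h
      · rw [h.2] at hk; simp at hk
      · rw [h.2.2] at hk; simp at hk
      · rw [h.2.2] at hk; simp at hk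
      · rw [h.2.2.2] at hk; simp at hk
      · rw [h.2.2.2] at hk; simp at hk
      · rw [h.2.2] at hk; simp at hk
    rw [kid2_old hy] at hk
    have h4' := h4
    rw [kid2_old (by omega)] at h4'
    have h5 := kid_conv H u x y h1 h2 hy (by
      simp only [Kid2.old.injEq] at hk h4'
      rw [hk, h4'])
    rw [kid2_old (show x < wb c t by omega), kid2_old (show u < wb c t by omega), h5]
  | T2 b =>
    obtain ⟨-, -, h5, -⟩ := T.T2 y b h3 hk
    obtain ⟨-, h6, -, -, -, -, -, h7⟩ := T.T2 u b (by omega) h4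
    rw [h4]
    exact h7 x (by omega) (by omega)
  | C2 b =>
    obtain ⟨-, -, h5, -⟩ := T.C2 y b h3 hk
    obtain ⟨-, h6, -, -, -, -, -, h7⟩ := T.C2 u b (by omega) h4
    rw [h4]
    exact h7 x (by omega) (by omega)
  | mid f =>
    obtain ⟨-, -, h5, -⟩ := T.mid y f h3 hk
    obtain ⟨-, h6, -, -, -, -, -, h7⟩ := T.mid u f (by omega) h4
    rw [h4]
    exact h7 x (by omega) (by omega)
  | T1 f =>
    obtain ⟨-, -, -, h5, -⟩ := T.T1 y f h3 hk
    obtain ⟨-, -, h6, -, -, -, -, -, h7⟩ := T.T1 u f (by omega) h4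
    rw [h4]
    exact h7 x (by omega) (by omega)
  | C1 f =>
    obtain ⟨-, -, -, h5, -⟩ := T.C1 y f h3 hk
    obtain ⟨-, -, h6, -, -, -, -, -, h7⟩ := T.C1 u f (by omega) h4
    rw [h4]
    exact h7 x (by omega) (by omega)
  | cell p =>
    obtain ⟨-, -, -, h5, -⟩ := T.cell y p h3 hk
    obtain ⟨-, -, h6, -, -, -, h7⟩ := T.cell u p (by omega) h4
    rw [h4]
    exact h7 x (by omega) (by omega)

/-- the `n` largest multiples of `L` below `t` -/
def lastL (L n t : ℕ) : Finset ℕ := (range n).image (fun i => L * (t / L - i))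

lemma mem_lastL {L n t x : ℕ} (hp : 0 < L) (hx : L ∣ x) (h1 : x ≤ t) (h2 : t < x + n * L) :
    x ∈ lastL L n t := by
  obtain ⟨k, rfl⟩ := hx
  unfold lastL
  rw [mem_image]
  have h3 : k ≤ t / L := (Nat.le_div_iff_mul_le hp).mpr (by rw [mul_comm]; exact h1)
  have h4 : t / L < k + n := by
    rw [Nat.div_lt_iff_lt_mul hp]
    calc t < L * k + n * L := h2
      _ = (k + n) * L := by ring
  refine ⟨t / L - k, mem_range.mpr (by omega), ?_⟩
  congr 1
  omega

lemma card_lastL (L n t : ℕ) : (lastL L n t).card ≤ n := by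
  refine card_image_le.trans ?_
  rw [card_range]

lemma two_pow_kk (e : ℕ) : 2 ^ kk e ≤ 16 * (3 * e + 10) := by
  unfold kk
  have h1 : 1 < 8 * (3 * e + 10) := by omega
  have h2 := Nat.pow_pred_clog_lt_self (b := 2) (by norm_num) h1
  have h3 : 0 < Nat.clog 2 (8 * (3 * e + 10)) := Nat.clog_pos (by norm_num) (by omega)
  obtain ⟨m, hm⟩ : ∃ m, Nat.clog 2 (8 * (3 * e + 10)) = m + 1 := ⟨_, (Nat.succ_pred_eq_of_pos h3).symm⟩
  rw [hm] at h2 ⊢
  simp only [Nat.pred_succ] at h2
  rw [pow_succ]
  omega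

/-- the number of mid blocks in a unit -/
lemma pow_le_hh (hc : 10 ≤ c) {e : ℕ} (hk : 4 * c ≤ kk e + 8) :
    CC c ^ e ≤ (3 * e + 10) * hh c e := by
  have h1 := two_pow_kk e
  have e5 : c * (e + 4) = c * e + c * 4 := by ring
  have h2 : 10 + kk e ≤ c * (e + 4) ∨ c * (e + 4) < 10 + kk e := by omega
  rcases h2 with h2 | h2
  · have h3 : CC c ^ e * 2 ^ (4 * c) = 2 ^ (10 + kk e) * hh c e := by
      unfold hh
      rw [CC_pow, ← pow_add, ← pow_add]
      congr 1
      omega
    have h4 : (2:ℕ) ^ 40 ≤ 2 ^ (4 * c) := Nat.pow_le_pow_right (by norm_num) (by omega)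
    have h5 : CC c ^ e * 2 ^ 40 ≤ ((3 * e + 10) * hh c e) * 2 ^ 40 := by
      calc CC c ^ e * 2 ^ 40 ≤ CC c ^ e * 2 ^ (4 * c) := Nat.mul_le_mul_left _ h4
        _ = 2 ^ 10 * 2 ^ kk e * hh c e := by rw [h3, pow_add]
        _ ≤ 2 ^ 10 * (16 * (3 * e + 10)) * hh c e :=
          Nat.mul_le_mul_right _ (Nat.mul_le_mul_left _ h1)
        _ = 2 ^ 14 * ((3 * e + 10) * hh c e) := by ring
        _ ≤ 2 ^ 40 * ((3 * e + 10) * hh c e) := Nat.mul_le_mul_right _ (by norm_num)
        _ = _ := by ring
    exact Nat.le_of_mul_le_mul_right h5 (by norm_num)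
  · -- a degenerate case
    have h3 : 2 ^ (c * (e + 4)) ≤ 2 ^ (10 + kk e) := Nat.pow_le_pow_right (by norm_num) h2.le
    have h4 : (2:ℕ) ^ 40 ≤ 2 ^ (c * 4) := Nat.pow_le_pow_right (by norm_num) (by omega)
    have h6 : CC c ^ e * 2 ^ 40 ≤ (3 * e + 10) * 2 ^ 40 := by
      calc CC c ^ e * 2 ^ 40 ≤ 2 ^ (c * e) * 2 ^ (c * 4) := by
            rw [CC_pow]; exact Nat.mul_le_mul_left _ h4
        _ = 2 ^ (c * (e + 4)) := by rw [← pow_add, e5]
        _ ≤ 2 ^ 10 * 2 ^ kk e := by rw [← pow_add]; exact h3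
        _ ≤ 2 ^ 10 * (16 * (3 * e + 10)) := Nat.mul_le_mul_left _ h1
        _ = (3 * e + 10) * 2 ^ 14 := by ring
        _ ≤ _ := Nat.mul_le_mul_left _ (by norm_num)
    have h7 := Nat.le_of_mul_le_mul_right h6 (by norm_num)
    exact h7.trans (Nat.le_mul_of_pos_right _ (hh_pos c e))

/-- the starts of the mid blocks of the top zone -/
def midS (c t : ℕ) : Finset ℕ :=
  lastL (hh c (epo c t)) (4 * (3 * epo c t + 10)) t ∪
    lastL (hh c (epo c t + 1)) (4 * (3 * (epo c t + 1) + 10)) t

/-- the starts of the small cells of the top zone -/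
def cellS2 (c t : ℕ) : Finset ℕ :=
  lastL (ll c (epo c t)) (2 ^ 11 * CC c ^ 8) t ∪ lastL (ll c (epo c t + 1)) (2 ^ 11 * CC c ^ 8) t

lemma mem_midS {t : ℕ} (h : Big c t) {f : ℕ} (hf : mb c f = f) (h1 : wb c t ≤ f) (h2 : f ≤ t) :
    f ∈ midS c t := by
  have hc := h.hc
  have p := h.pos (s := f) (by omega) h2
  have h3 := lt_wb_add hc h.nine
  have h4 : Wd c (wb c t) ≤ CC c ^ ep c f := Wd_mono h1
  have h5 := pow_le_hh (c := c) hc (e := ep c f) (by
    have := h.hk
    have := kk_mono p.lo
    omega)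
  have h6 : hh c (ep c f) ∣ f := (gridH c hc).gs_eq_iff.mp hf
  have h7 : t < f + 4 * (3 * ep c f + 10) * hh c (ep c f) := by
    have : 4 * (3 * ep c f + 10) * hh c (ep c f) = 4 * ((3 * ep c f + 10) * hh c (ep c f)) := by
      ring
    omega
  unfold midS
  rw [mem_union]
  have h8 : ep c f = epo c t ∨ ep c f = epo c t + 1 := by
    have := p.lo
    have := p.hi
    omega
  rcases h8 with h8 | h8
  · left
    rw [← h8]
    exact mem_lastL (hh_pos _ _) h6 h2 h7
  · right
    rw [← h8]
    exact mem_lastL (hh_pos _ _) h6 h2 h7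

lemma mem_cellS2 {t : ℕ} (h : Big c t) {p : ℕ} (hp : sb c p = p) (h1 : fb c t ≤ p)
    (h2 : p ≤ t) : p ∈ cellS2 c t := by
  have hc := h.hc
  have h0 := h.wb_le_fb
  have q := h.pos (s := p) (by omega) h2
  have q1 := q.lo
  have q2 := q.hi
  have ht := h.ht
  have h3 := lt_fb_add hc h.nine
  have h4 : Hd c (fb c t) ≤ hh c (ep c p) := Hd_mono hc (eight_le_ep_fb hc h.nine) h1
  rw [hh_eq hc (by omega)] at h4
  have h6 : ll c (ep c p) ∣ p := (gridL c hc).gs_eq_iff.mp hp
  have h7 : t < p + 2 ^ 11 * CC c ^ 8 * ll c (ep c p) := by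
    have : 2 ^ 11 * CC c ^ 8 * ll c (ep c p) = 4 * (2 ^ 9 * CC c ^ 8 * ll c (ep c p)) := by
      ring
    omega
  unfold cellS2
  rw [mem_union]
  have h8 : ep c p = epo c t ∨ ep c p = epo c t + 1 := by omega
  rcases h8 with h8 | h8
  · left
    rw [← h8]
    exact mem_lastL (ll_pos _ _) h6 h2 h7
  · right
    rw [← h8]
    exact mem_lastL (ll_pos _ _) h6 h2 h7

/-- the number of values of `kid2` -/
theorem card_kid2 {t : ℕ} (h : Big c t) :
    ((range (zb c t)).image (kid2 c t)).card ≤ 22 * lg c t + 107 + 4110 * CC c ^ 8 := by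
  classical
  have hc := h.hc
  have T := topOK h
  have hz := h.zb_le
  have hsub : (range (zb c t)).image (kid2 c t) ⊆
      ((range (wb c t)).image (kid c t)).image Kid2.old ∪
      ({.T2 (wb c t), .C2 (wb c t), .T1 (fb c t), .C1 (fb c t)} : Finset Kid2) ∪
      ((midS c t).image Kid2.mid ∪ (cellS2 c t).image Kid2.cell) := by
    intro k hk
    rw [mem_image] at hk
    obtain ⟨s, hs, hk⟩ := hk
    rw [mem_range] at hs
    rw [mem_union, mem_union, mem_union]
    cases k with
    | old k =>
      left; left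
      have hy : s < wb c t := by
        by_contra hn
        rw [kid2_top (by omega)] at hk
        rcases kidU_cases c t s with h | h | h | h | h | h
        · rw [h.2] at hk; simp at hk
        · rw [h.2.2] at hk; simp at hk
        · rw [h.2.2] at hk; simp at hk
        · rw [h.2.2.2] at hk; simp at hk
        · rw [h.2.2.2] at hk; simp at hk
        · rw [h.2.2] at hk; simp at hk
      rw [kid2_old hy] at hk
      simp only [Kid2.old.injEq] at hk
      rw [mem_image]
      refine ⟨k, ?_, rfl⟩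
      rw [mem_image]
      exact ⟨s, mem_range.mpr hy, hk⟩
    | T2 b =>
      left; right
      obtain ⟨h5, -⟩ := T.T2 s b hs hk
      rw [h5]
      simp
    | C2 b =>
      left; right
      obtain ⟨h5, -⟩ := T.C2 s b hs hk
      rw [h5]
      simp
    | T1 f =>
      left; right
      obtain ⟨h5, -⟩ := T.T1 s f hs hk
      rw [h5]
      simp
    | C1 f =>
      left; right
      obtain ⟨h5, -⟩ := T.C1 s f hs hk
      rw [h5]
      simp
    | mid f =>
      right; left
      obtain ⟨h5, h6, -, -, h7, -⟩ := T.mid s f hs hk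
      rw [mem_image]
      exact ⟨f, mem_midS h h7 h5 (by omega), rfl⟩
    | cell p =>
      right; right
      obtain ⟨h5, -, h6, -, -, h7, -⟩ := T.cell s p hs hk
      rw [mem_image]
      exact ⟨p, mem_cellS2 h h7 h5 (by omega), rfl⟩
  have h1 := card_kid hc h.nine
  have h2 : (midS c t).card ≤ 4 * (3 * epo c t + 10) + 4 * (3 * (epo c t + 1) + 10) :=
    (card_union_le _ _).trans (Nat.add_le_add (card_lastL _ _ _) (card_lastL _ _ _))
  have h3 : (cellS2 c t).card ≤ 2 ^ 11 * CC c ^ 8 + 2 ^ 11 * CC c ^ 8 :=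
    (card_union_le _ _).trans (Nat.add_le_add (card_lastL _ _ _) (card_lastL _ _ _))
  have h4 : 2 * epo c t ≤ lg c t := by unfold epo; omega
  have h5 : ({.T2 (wb c t), .C2 (wb c t), .T1 (fb c t), .C1 (fb c t)} : Finset Kid2).card ≤ 4 :=
    card_le_four
  refine (card_le_card hsub).trans ((card_union_le _ _).trans ?_)
  refine (Nat.add_le_add (card_union_le _ _) (card_union_le _ _)).trans ?_
  have h6 := card_image_le (s := (range (wb c t)).image (kid c t)) (f := Kid2.old)
  have h7 := card_image_le (s := midS c t) (f := Kid2.mid)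
  have h8 := card_image_le (s := cellS2 c t) (f := Kid2.cell)
  omega

open Classical in
lemma length_toRegs_le (c t : ℕ) (q : Kid2 × ℕ × ℕ) :
    (toRegs2 c t q).length ≤ 1 + (if ∃ g b, q.1 = .old (.PT g b) then 1 else 0) := by
  obtain ⟨k, s, e⟩ := q
  cases k with
  | old k =>
    cases k with
    | PT g b =>
      rw [if_pos ⟨g, b, rfl⟩]
      simp only [toRegs2, toRegs]
      split_ifs <;> simp
    | _ => simp [toRegs2, toRegs]
  | _ => simp [toRegs2]

open Classical in
lemma length_flatMap_le {t : ℕ} : ∀ (L : List (Kid2 × ℕ × ℕ)), (L.map Prod.fst).Nodup →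
    (∀ q ∈ L, ∀ q' ∈ L, ∀ g b g' b', q.1 = .old (.PT g b) → q'.1 = .old (.PT g' b') →
      q.1 = q'.1) →
    (L.flatMap (toRegs2 c t)).length ≤ L.length +
      (if ∃ q ∈ L, ∃ g b, q.1 = .old (.PT g b) then 1 else 0)
  | [], _, _ => by simp
  | q :: L, hn, h => by
    rw [List.flatMap_cons, List.length_append, List.length_cons]
    rw [List.map_cons, List.nodup_cons] at hn
    have ih := length_flatMap_le (t := t) L hn.2 (fun q1 h1 q2 h2 =>
      h q1 (List.mem_cons_of_mem _ h1) q2 (List.mem_cons_of_mem _ h2))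
    have h1 := length_toRegs_le c t q
    by_cases h2 : ∃ g b, q.1 = .old (.PT g b)
    · have h3 : ¬ ∃ q ∈ L, ∃ g b, q.1 = .old (.PT g b) := by
        rintro ⟨q', hq', g', b', h4⟩
        obtain ⟨g, b, h5⟩ := h2
        apply hn.1
        rw [List.mem_map]
        exact ⟨q', hq', (h q List.mem_cons_self q' (List.mem_cons_of_mem _ hq') g b g' b' h5
          h4).symm⟩
      rw [if_neg h3] at ih
      rw [if_pos h2] at h1
      rw [if_pos ⟨q, List.mem_cons_self, h2⟩]
      omega
    · rw [if_neg h2] at h1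
      by_cases h3 : ∃ q ∈ L, ∃ g b, q.1 = .old (.PT g b)
      · rw [if_pos h3] at ih
        obtain ⟨q', hq', h4⟩ := h3
        rw [if_pos ⟨q', List.mem_cons_of_mem _ hq', h4⟩]
        omega
      · rw [if_neg h3] at ih
        have : (0:ℕ) ≤ (if ∃ q' ∈ q :: L, ∃ g b, q'.1 = .old (.PT g b) then 1 else 0) :=
          Nat.zero_le _
        omega

/-- **The number of regions** below the zone. -/
theorem length_body {t : ℕ} (h : Big c t) :
    (body c t).length ≤ 22 * lg c t + 108 + 4110 * CC c ^ 8 := by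
  have H := kidOK h.hc h.nine
  have T := topOK h
  have h1 := (runs_length_le (kid2_conv H T) (u := 0)).trans (card_kid2 h)
  have h2 := length_flatMap_le (c := c) (t := t) (runs (kid2 c t) (zb c t) 0)
    (runs_fst_nodup (kid2_conv H T) _ 0 le_rfl) (by
      intro q hq q' hq' g b g' b' h3 h4
      obtain ⟨-, h6, h7, h8, -⟩ := isRun_of_mem' _ hq
      obtain ⟨-, h6', h7', h8', -⟩ := isRun_of_mem' _ hq'
      have h9 := h8 q.2.1 le_rfl h6
      have h10 := h8' q'.2.1 le_rfl h6'
      rw [h3] at h9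
      rw [h4] at h10
      have k1 : kid c t q.2.1 = .PT g b := by
        unfold kid2 at h9
        split_ifs at h9
        · simpa using h9
        · exfalso
          rcases kidU_cases c t q.2.1 with h | h | h | h | h | h
          · rw [h.2] at h9; simp at h9
          · rw [h.2.2] at h9; simp at h9
          · rw [h.2.2] at h9; simp at h9
          · rw [h.2.2.2] at h9; simp at h9
          · rw [h.2.2.2] at h9; simp at h9
          · rw [h.2.2] at h9; simp at h9
      have k2 : kid c t q'.2.1 = .PT g' b' := by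
        unfold kid2 at h10
        split_ifs at h10
        · simpa using h10
        · exfalso
          rcases kidU_cases c t q'.2.1 with h | h | h | h | h | h
          · rw [h.2] at h10; simp at h10
          · rw [h.2.2] at h10; simp at h10
          · rw [h.2.2] at h10; simp at h10
          · rw [h.2.2.2] at h10; simp at h10
          · rw [h.2.2.2] at h10; simp at h10
          · rw [h.2.2] at h10; simp at h10
      obtain ⟨h11, h12⟩ := PT_unique k1 k2
      rw [h3, h4, h11, h12])
  unfold body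
  split_ifs at h2 <;> omega

end Pool.Agent.Helper29.E2.K99

namespace Pool.Agent.E2S

open Pool.Agent.Helper29.ETK (CC lg)

/-- **COUNT**: the number of regions of the layout of one time. -/
theorem length_layL {c t : ℕ} (h : Helper29.E2.Big c t) :
    (E2.layL c t).length ≤ lenF 22 (4110 * CC c ^ 8 + 65) c t := by
  have h1 := Helper29.E2.K99.length_body h
  unfold E2.layL lenF
  rw [List.length_append, List.length_singleton]
  omega

/-- COUNT, with larger constants -/
theorem length_layL_le {a b c t : ℕ} (h : Helper29.E2.Big c t) (ha : 22 ≤ a)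
    (hb : 4110 * CC c ^ 8 + 65 ≤ b) : (E2.layL c t).length ≤ lenF a b c t :=
  (length_layL h).trans (by unfold lenF; gcongr)

end Pool.Agent.E2S
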