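import Mathlib
import Pool.Agent.Helper99.E2.Count2
import Pool.Agent.Helper16.E2.NearDefs

/-!
# E-T (MP_12a1af_nt), phase 2: the numbers of the near theorem
-/

open Finset

namespace Pool.Agent.E2S

open Pool.Agent.Helper29.ETK (CC lg kk)
open Pool.Agent.Helper29.E2 (ep epo hh ll Big)
open Pool.Agent.Helper29.E2.K99 (two_pow_kk length_body)
open Pool.Agent.E2 (nearB body)

variable {c : ℕ}

lemma pow_le_hh2 (hc : 10 ≤ c) {e : ℕ} (hk : 4 * c ≤ kk e + 8) :
    CC c ^ e * 2 ^ 26 ≤ (3 * e + 10) * hh c e := by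
  have h1 := two_pow_kk e
  have e5 : c * (e + 4) = c * e + c * 4 := by ring
  have h4 : (2:ℕ) ^ 40 ≤ 2 ^ (c * 4) := Nat.pow_le_pow_right (by norm_num) (by omega)
  have key : CC c ^ e * 2 ^ 40 ≤ 2 ^ 14 * ((3 * e + 10) * hh c e) := by
    rcases Nat.lt_or_ge (c * (e + 4)) (10 + kk e) with h2 | h2
    · calc CC c ^ e * 2 ^ 40 ≤ 2 ^ (c * e) * 2 ^ (c * 4) := by
            rw [Pool.Agent.Helper29.E2.CC_pow]; exact Nat.mul_le_mul_left _ h4
        _ = 2 ^ (c * (e + 4)) := by rw [← pow_add, e5]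
        _ ≤ 2 ^ 10 * 2 ^ kk e := by
          rw [← pow_add]; exact Nat.pow_le_pow_right (by norm_num) h2.le
        _ ≤ 2 ^ 10 * (16 * (3 * e + 10)) := Nat.mul_le_mul_left _ h1
        _ = 2 ^ 14 * ((3 * e + 10) * 1) := by ring
        _ ≤ _ := Nat.mul_le_mul_left _ (Nat.mul_le_mul_left _ (Pool.Agent.Helper29.E2.hh_pos c e))
    · have h3 : CC c ^ e * 2 ^ (c * 4) = 2 ^ (10 + kk e) * hh c e := by
        unfold hh
        rw [Pool.Agent.Helper29.E2.CC_pow, ← pow_add, ← pow_add]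
        congr 1
        omega
      calc CC c ^ e * 2 ^ 40 ≤ CC c ^ e * 2 ^ (c * 4) := Nat.mul_le_mul_left _ h4
        _ = 2 ^ 10 * 2 ^ kk e * hh c e := by rw [h3, pow_add]
        _ ≤ 2 ^ 10 * (16 * (3 * e + 10)) * hh c e :=
          Nat.mul_le_mul_right _ (Nat.mul_le_mul_left _ h1)
        _ = 2 ^ 14 * ((3 * e + 10) * hh c e) := by ring
  have e1 : CC c ^ e * 2 ^ 40 = 2 ^ 14 * (CC c ^ e * 2 ^ 26) := by
    have : (2:ℕ) ^ 40 = 2 ^ 14 * 2 ^ 26 := by norm_num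
    rw [this]; ring
  rw [e1] at key
  exact Nat.le_of_mul_le_mul_left key (by norm_num)

lemma div_hh_le (hc : 10 ≤ c) {e : ℕ} (hk : 4 * c ≤ kk e + 8) :
    CC c ^ e / hh c e ≤ (e + 4) / 16 := by
  have h1 := pow_le_hh2 hc hk
  have h0 := Pool.Agent.Helper29.E2.hh_pos c e
  rw [Nat.le_div_iff_mul_le (by norm_num)]
  have h2 : CC c ^ e / hh c e * hh c e ≤ CC c ^ e := Nat.div_mul_le_self _ _
  have h3 : (CC c ^ e / hh c e * 16) * hh c e ≤ (e + 4) * hh c e := by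
    calc (CC c ^ e / hh c e * 16) * hh c e = 16 * (CC c ^ e / hh c e * hh c e) := by ring
      _ ≤ 16 * CC c ^ e := Nat.mul_le_mul_left _ h2
      _ ≤ (e + 4) * hh c e := by
        have h4 : (3 * e + 10) * hh c e ≤ 4 * ((e + 4) * hh c e) := by
          calc (3 * e + 10) * hh c e ≤ (4 * (e + 4)) * hh c e := Nat.mul_le_mul_right _ (by omega)
            _ = _ := by ring
        norm_num at h1
        omega
  exact Nat.le_of_mul_le_mul_right h3 h0

/-- the bound `E` of the weights in the near theorem -/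
def Enear (c K' : ℕ) : ℕ := (epo c K' + 5) / 16 + 2 + 2 ^ 9 * CC c ^ 8

lemma Enear_ok {K' : ℕ} (h : Big c K') :
    2 ≤ Enear c K' ∧ hh c (epo c K') / ll c (epo c K') ≤ Enear c K' ∧
      hh c (epo c K' + 1) / ll c (epo c K' + 1) ≤ Enear c K' ∧
      CC c ^ epo c K' / hh c (epo c K') ≤ Enear c K' ∧
      CC c ^ (epo c K' + 1) / hh c (epo c K' + 1) ≤ Enear c K' := by
  have hc := h.hc
  have ht := h.ht
  have hk := h.hk
  have h1 := div_hh_le hc (e := epo c K') (by omega)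
  have h2 := div_hh_le hc (e := epo c K' + 1) (by
    have := Pool.Agent.Helper29.E2.kk_mono (show epo c K' ≤ epo c K' + 1 by omega)
    omega)
  have h3 : ∀ e, 8 ≤ e → hh c e / ll c e ≤ 2 ^ 9 * CC c ^ 8 := by
    intro e he
    rw [Pool.Agent.Helper29.E2.hh_eq hc he,
      Nat.mul_div_cancel _ (Pool.Agent.Helper29.E2.ll_pos c e)]
  have h4 := h3 (epo c K') (by omega)
  have h5 := h3 (epo c K' + 1) (by omega)
  unfold Enear
  refine ⟨by omega, by omega, by omega, ?_, ?_⟩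
  · refine h1.trans ?_
    omega
  · refine h2.trans ?_
    omega

lemma lg_le_log (hc : 10 ≤ c) (K : ℕ) : lg c K ≤ Nat.log 2 K := by
  unfold lg
  apply Nat.log_anti_left (by norm_num)
  have := Pool.Agent.Helper29.ETK.CC_ge hc
  omega

/-- the constants -/
def b1c (c : ℕ) : ℕ := 4110 * CC c ^ 8 + 3 * (2 ^ 9 * CC c ^ 8) + 200

/-- constant of the bound of the top -/
def C1c (c : ℕ) : ℕ := 10 ^ 9 * CC c ^ 20 * 2 ^ 120

/-- constant of the logarithm -/
def b3c (c : ℕ) : ℕ := 8 * (75 + b1c c) + 100 + Nat.log 2 (C1c c)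

/-- the final constant -/
def b0c (c : ℕ) : ℕ := 153738 * (4 * (C1c c * 208 ^ 3) * b3c c) + 4 + b1c c

lemma exp_le {K K' : ℕ} (h : Big c K') (hKK : K' ≤ K) :
    (body c K').length + 2 * Enear c K' + Enear c K' ≤ 25 * (lg c K + 2) + b1c c := by
  have h1 := length_body h
  have h2 := Pool.Agent.Helper29.ETK.lg_mono (c := c) hKK
  have h4 : 2 * epo c K' ≤ lg c K' := by unfold epo; omega
  unfold Enear b1c
  omega

theorem num_near {b K K' : ℕ} (h : Big c K') (hKK : K' ≤ K) (hb : b0c c ≤ b) :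
    nearB 132 153738 ((body c K').length + 2 * Enear c K') (Enear c K')
      (10 ^ 6 * (1000 * CC c ^ (epo c K + 2)) * (2 ^ 40 * CC c ^ 6 * 2 ^ kk (epo c K)) ^ 3) ≤
      nearF 25 132 b c K := by
  have hc := h.hc
  have hE := exp_le h hKK
  have hlg := lg_le_log hc K
  obtain ⟨L, hL⟩ : ∃ L, L = Nat.log 2 K + 1 := ⟨_, rfl⟩
  have hK0 : K ≠ 0 := by
    rintro rfl
    have h1 := h.ht
    have h2 : K' = 0 := by omega
    rw [h2] at h1
    simp [epo, lg] at h1
  -- the bound of the top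
  obtain ⟨BT, hBT⟩ : ∃ BT, BT = 10 ^ 6 * (1000 * CC c ^ (epo c K + 2)) *
    (2 ^ 40 * CC c ^ 6 * 2 ^ kk (epo c K)) ^ 3 := ⟨_, rfl⟩
  rw [← hBT]
  have hkk : 2 ^ kk (epo c K) ≤ 208 * L := by
    refine (two_pow_kk _).trans ?_
    have : 2 * epo c K ≤ lg c K := by unfold epo; omega
    omega
  have hepo : epo c K ≤ ep c K := by unfold epo ep; omega
  have hBT1 : BT ≤ C1c c * 208 ^ 3 * L ^ 3 * CC c ^ ep c K := by
    rw [hBT]
    calc 10 ^ 6 * (1000 * CC c ^ (epo c K + 2)) * (2 ^ 40 * CC c ^ 6 * 2 ^ kk (epo c K)) ^ 3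
        ≤ 10 ^ 6 * (1000 * CC c ^ (ep c K + 2)) * (2 ^ 40 * CC c ^ 6 * (208 * L)) ^ 3 := by
          refine Nat.mul_le_mul (Nat.mul_le_mul_left _ (Nat.mul_le_mul_left _ ?_))
            (Nat.pow_le_pow_left (Nat.mul_le_mul_left _ hkk) 3)
          exact Pool.Agent.Helper29.ETK.pow_le c (by omega)
      _ = C1c c * 208 ^ 3 * L ^ 3 * CC c ^ ep c K := by
          unfold C1c
          ring
  -- the logarithm
  obtain ⟨M, hM⟩ : ∃ M, M = (body c K').length + 2 * Enear c K' := ⟨_, rfl⟩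
  rw [← hM] at hE ⊢
  have hC1 : C1c c < 2 ^ (Nat.log 2 (C1c c) + 1) := Nat.lt_pow_succ_log_self (by norm_num) _
  have hCK : CC c ^ ep c K ≤ K :=
    (Pool.Agent.Helper29.ETK.pow_le c (by unfold ep; omega)).trans
      (Pool.Agent.Helper29.ETK.lg_le c hK0)
  have hKL : K < 2 ^ L := by rw [hL]; exact Nat.lt_pow_succ_log_self (by norm_num) _
  have hLL : L ^ 3 ≤ 2 ^ (3 * L) := by
    have : L ≤ 2 ^ L := Nat.lt_two_pow_self.le
    calc L ^ 3 ≤ (2 ^ L) ^ 3 := Nat.pow_le_pow_left this 3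
      _ = 2 ^ (3 * L) := by rw [← pow_mul]; congr 1; ring
  have hlog : Nat.log 2 (4 * 132 ^ M * BT) + 1 ≤ b3c c * L := by
    have h1 : 4 * 132 ^ M * BT < 2 ^ (2 + 8 * M + (Nat.log 2 (C1c c) + 1 + 24 + 3 * L + L)) := by
      have h2 : BT < 2 ^ (Nat.log 2 (C1c c) + 1 + 24 + 3 * L + L) := by
        refine lt_of_le_of_lt hBT1 ?_
        rw [pow_add _ _ L, pow_add _ _ (3 * L), pow_add _ _ 24]
        refine Nat.mul_lt_mul_of_le_of_lt ?_ (lt_of_le_of_lt hCK hKL) (by positivity)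
        refine Nat.mul_le_mul (Nat.mul_le_mul hC1.le (by norm_num)) hLL
      have h3 : 4 * 132 ^ M ≤ 2 ^ (2 + 8 * M) := by
        rw [pow_add, pow_mul]
        exact Nat.mul_le_mul (by norm_num) (Nat.pow_le_pow_left (by norm_num) M)
      rw [pow_add 2 (2 + 8 * M)]
      exact Nat.mul_lt_mul_of_le_of_lt h3 h2 (by positivity)
    have h2 := Nat.log_lt_of_lt_pow' (b := 2) (by omega) h1
    have h3 : M ≤ (75 + b1c c) * L := by
      have : b1c c ≤ b1c c * L := Nat.le_mul_of_pos_right _ (by omega)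
      have e : (75 + b1c c) * L = 75 * L + b1c c * L := by ring
      omega
    have h4 : Nat.log 2 (C1c c) ≤ Nat.log 2 (C1c c) * L := Nat.le_mul_of_pos_right _ (by omega)
    have e : b3c c * L = 8 * ((75 + b1c c) * L) + 100 * L + Nat.log 2 (C1c c) * L := by
      unfold b3c; ring
    omega
  -- the product
  unfold nearB nearF plog
  have hb0 : b0c c = 153738 * (4 * (C1c c * 208 ^ 3) * b3c c) + 4 + b1c c := rfl
  have hexp : 132 ^ (M + Enear c K') ≤ 132 ^ lenF 25 b c K := by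
    apply Nat.pow_le_pow_right (by norm_num)
    unfold lenF
    omega
  have hrest : 153738 * (4 * BT * (Nat.log 2 (4 * 132 ^ M * BT) + 1)) ≤
      b * (Nat.log 2 K + 1) ^ b * CC c ^ ep c K := by
    rw [← hL]
    calc 153738 * (4 * BT * (Nat.log 2 (4 * 132 ^ M * BT) + 1))
        ≤ 153738 * (4 * (C1c c * 208 ^ 3 * L ^ 3 * CC c ^ ep c K) * (b3c c * L)) :=
          Nat.mul_le_mul_left _ (Nat.mul_le_mul (Nat.mul_le_mul_left _ hBT1) hlog)
      _ = 153738 * (4 * (C1c c * 208 ^ 3) * b3c c) * L ^ 4 * CC c ^ ep c K := by ring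
      _ ≤ b * L ^ b * CC c ^ ep c K := by
          refine Nat.mul_le_mul_right _ (Nat.mul_le_mul (by omega) ?_)
          exact Nat.pow_le_pow_right (by omega) (by omega)
  calc 132 ^ (M + Enear c K') * 153738 * (4 * BT * (Nat.log 2 (4 * 132 ^ M * BT) + 1))
      = 132 ^ (M + Enear c K') * (153738 * (4 * BT * (Nat.log 2 (4 * 132 ^ M * BT) + 1))) := by
        ring
    _ ≤ 132 ^ lenF 25 b c K * (b * (Nat.log 2 K + 1) ^ b * CC c ^ ep c K) :=
        Nat.mul_le_mul hexp hrest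
    _ = _ := by ring

end Pool.Agent.E2S
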